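import Mathlib

/-!
# Definition of the ramification condition
-/

namespace Pool.Agent.helper64.Bog

open Module

variable {Ω : Type*} [Field Ω] [CharZero Ω]

/-- `Ram k t` : for every field `M` above some finite field `M₀`, at every 3-adic place of `M`,
`|v(t)| = 3^(-k)` (where `v 3 = 1`). -/
def Ram (k : ℕ) (t : Ω) : Prop :=
  ∃ M₀ : IntermediateField ℚ Ω, FiniteDimensional ℚ M₀ ∧
    ∀ M : IntermediateField ℚ Ω, M₀ ≤ M → ∀ w : AbsoluteValue M ℝ, IsNonarchimedean w → w 3 < 1 →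
      ∀ ht : t ∈ M, w ⟨t, ht⟩ ^ 3 ^ k = w 3 ∨ w ⟨t, ht⟩ ^ 3 ^ k * w 3 = 1

end Pool.Agent.helper64.Bog
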