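import Pool.Agent.helper64.Bog.KeyM3
import Pool.Agent.helper64.Bog.RamDef

/-!
# The key step
-/

namespace Pool.Agent.helper64.Bog

open NumberField Height Module IntermediateField

variable {Ω : Type*} [Field Ω] [CharZero Ω]

/-- `key_M` for an arbitrary `ℚ`-algebra structure. -/
theorem key_M' {M : Type*} [Field M] [alg : Algebra ℚ M] [NumberField M] [IsGalois ℚ M]
    {N N' F : IntermediateField ℚ M} (hN : @Normal ℚ N _ _ N.algebra') (hNN' : N ≤ N') {κ : ℕ}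
    (hκ : finrank ℚ N = κ) (hμ : ∀ z : M, z ^ 3 ^ (3 * κ) = 1 → z ∈ N') {m : ℕ}
    (hF : finrank ℚ F = 3 ^ m) {α : M}
    (hα : ∀ w : FinitePlace M, w.1 3 < 1 →
      w.1 α ^ 3 ^ (m + 1) = w.1 3 ∨ w.1 α ^ 3 ^ (m + 1) * w.1 3 = 1)
    (htF : α ^ 3 + (α ^ 3)⁻¹ ∈ F) (h1 : α ^ 3 ∉ N' ⊔ F) (h3 : α ∉ (N' ⊔ F) ⊔ ℚ⟮α ^ 3⟯)
    {β : M} (hβ : β ∈ N ⊔ (F ⊔ ℚ⟮α + α⁻¹⟯))
    (hh : logHeight₁ β < @finrank ℚ M _ _ alg.toModule / (2 * κ * 3 ^ (3 * κ))) : β ∈ N ⊔ F := by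
  obtain rfl : alg = DivisionRing.toRatAlgebra := Subsingleton.elim _ _
  have : Normal ℚ N := hN
  exact key_M hNN' hκ hμ hF hα htF h1 h3 hβ hh

/-- **Key step.** A point of small height of `N ⊔ (F ⊔ ℚ⟮α + α⁻¹⟯)` already lies in `N ⊔ F`. -/
theorem key_step [IsAlgClosed Ω] [Algebra.IsAlgebraic ℚ Ω] {N N' F : IntermediateField ℚ Ω}
    [FiniteDimensional ℚ N] [FiniteDimensional ℚ N'] [FiniteDimensional ℚ F] [Normal ℚ N]
    (hNN' : N ≤ N') (hμ : ∀ z : Ω, z ^ 3 ^ (3 * finrank ℚ N) = 1 → z ∈ N') {m : ℕ}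
    (hF : finrank ℚ F = 3 ^ m) {α : Ω} (hα : Ram (m + 1) α) (htF : α ^ 3 + (α ^ 3)⁻¹ ∈ F)
    (h1 : α ^ 3 ∉ N' ⊔ F) (h3 : α ∉ (N' ⊔ F) ⊔ ℚ⟮α ^ 3⟯)
    {β : Ω} (hβ : β ∈ N ⊔ (F ⊔ ℚ⟮α + α⁻¹⟯))
    (hh : absLogHeight₁ β < 1 / (2 * finrank ℚ N * 3 ^ (3 * finrank ℚ N))) : β ∈ N ⊔ F := by
  obtain ⟨M₀, hM₀, hram⟩ := hα
  have hαi : IsIntegral ℚ α := Algebra.IsIntegral.isIntegral α
  have hαf : FiniteDimensional ℚ ℚ⟮α⟯ := adjoin.finiteDimensional hαi
  set E : IntermediateField ℚ Ω := (M₀ ⊔ N') ⊔ (F ⊔ ℚ⟮α⟯) with hE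
  have hEf : FiniteDimensional ℚ E := by
    rw [hE]
    infer_instance
  have hnormal : Normal ℚ Ω := normal_iff.2 fun x =>
    ⟨Algebra.IsIntegral.isIntegral x, IsAlgClosed.splits _⟩
  set M : IntermediateField ℚ Ω := normalClosure ℚ E Ω with hM
  have hMf : FiniteDimensional ℚ M := by
    rw [hM]
    infer_instance
  have hMn : @Normal ℚ M _ _ M.algebra' := by
    rw [hM]
    exact normalClosure.normal ℚ E Ω
  have hEM : E ≤ M := le_normalClosure E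
  have hMnf : NumberField M := {}
  have hMg : @IsGalois ℚ _ M _ M.algebra' := @IsGalois.mk ℚ _ M _ M.algebra' inferInstance hMn
  have hM₀M : M₀ ≤ M := (le_sup_left.trans le_sup_left : M₀ ≤ E).trans hEM
  have hN'M : N' ≤ M := (le_sup_right.trans le_sup_left : N' ≤ E).trans hEM
  have hNM : N ≤ M := hNN'.trans hN'M
  have hFM : F ≤ M := (le_sup_left.trans le_sup_right : F ≤ E).trans hEM
  have hαM' : ℚ⟮α⟯ ≤ M := (le_sup_right.trans le_sup_right : ℚ⟮α⟯ ≤ E).trans hEM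
  have hαM : α ∈ M := hαM' (mem_adjoin_simple_self ℚ α)
  have huM : α + α⁻¹ ∈ M := M.add_mem hαM (M.inv_mem hαM)
  have hβM : β ∈ M := by
    refine (sup_le hNM (sup_le hFM ?_) : N ⊔ (F ⊔ ℚ⟮α + α⁻¹⟯) ≤ M) hβ
    rw [adjoin_simple_le_iff]
    exact huM
  set a : M := ⟨α, hαM⟩ with ha
  have hNr : @Normal ℚ (restrict hNM) _ _ (restrict hNM).algebra' :=
    Normal.of_algEquiv (F := ℚ) (E := N) (E' := restrict hNM) (h := ‹Normal ℚ N›)
      (restrictAlgEquiv hNM)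
  have hfinN : finrank ℚ (restrict hNM) = finrank ℚ N :=
    (restrictAlgEquiv hNM).symm.toLinearEquiv.finrank_eq
  have hfinF : finrank ℚ (restrict hFM) = 3 ^ m := by
    rw [← hF]
    exact (restrictAlgEquiv hFM).symm.toLinearEquiv.finrank_eq
  have key := key_M' (M := M) (alg := M.algebra') (N := restrict hNM) (N' := restrict hN'M)
    (F := restrict hFM) hNr
    (fun x hx => (mem_restrict hN'M x).2 (hNN' ((mem_restrict hNM x).1 hx)))
    (κ := finrank ℚ N) hfinN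
    (fun z hz => (mem_restrict hN'M z).2 (hμ z (by
      have := congrArg (fun y : M => (y : Ω)) hz
      simpa using this))) (m := m) hfinF (α := a)
    (fun w hw => hram M hM₀M w.1 (finitePlace_nonarch w) hw hαM)
    ((mem_restrict hFM _).2 htF)
    (by
      rw [← mem_lift, lift_sup, lift_restrict, lift_restrict]
      exact h1)
    (by
      rw [← mem_lift, lift_sup, lift_sup, lift_restrict, lift_restrict, lift_adjoin_simple]
      exact h3)
    (β := ⟨β, hβM⟩)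
    (by
      rw [← mem_lift, lift_sup, lift_sup, lift_restrict, lift_restrict, lift_adjoin_simple]
      exact hβ)
    (by
      have h5 : logHeight₁ (⟨β, hβM⟩ : M) = finrank ℚ M * absLogHeight₁ β :=
        logHeight₁_eq_finrank_mul M.val ⟨β, hβM⟩
      have h6 : (0 : ℝ) < finrank ℚ M := by exact_mod_cast finrank_pos
      rw [h5]
      calc (finrank ℚ M : ℝ) * absLogHeight₁ β
          < finrank ℚ M * (1 / (2 * finrank ℚ N * 3 ^ (3 * finrank ℚ N))) :=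
            mul_lt_mul_of_pos_left hh h6
        _ = _ := by ring)
  rw [← mem_lift, lift_sup, lift_restrict, lift_restrict] at key
  exact key

end Pool.Agent.helper64.Bog
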