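import Pool.Agent.helper64.Bog.Heights

/-!
# Number fields have the Bogomolov property
-/

namespace Pool.Agent.helper64.Bog

open NumberField Height Module IntermediateField

theorem number_field_aux (K : Type*) [Field K] [NumberField K] :
    ∃ ε > 0, ∀ x : K, x ≠ 0 → (∀ n : ℕ, 0 < n → x ^ n ≠ 1) → ε ≤ logHeight₁ x := by
  have hfin : {x : K | logHeight₁ x ≤ 1}.Finite := NumberField.finite_setOfPred_logHeight₁_le K 1
  have hpos : ∀ x : K, x ≠ 0 → (∀ n : ℕ, 0 < n → x ^ n ≠ 1) → 0 < logHeight₁ x := by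
    intro x hx0 hx
    rcases (zero_le_logHeight₁ x).lt_or_eq with h | h
    · exact h
    · exfalso
      have hmaps : Set.MapsTo (fun n : ℕ => x ^ n) Set.univ {x : K | logHeight₁ x ≤ 1} := by
        intro n _
        simp only [Set.mem_ofPred_eq]
        rw [logHeight₁_pow, ← h, mul_zero]
        exact zero_le_one
      obtain ⟨a, -, b, -, hab, heq⟩ := Set.infinite_univ.exists_ne_map_eq_of_mapsTo hmaps hfin
      wlog hlt : a < b generalizing a b
      · exact this b a hab.symm heq.symm (lt_of_le_of_ne (not_lt.1 hlt) hab.symm)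
      refine hx (b - a) (by omega) ?_
      have h1 : x ^ a * x ^ (b - a) = x ^ a * 1 := by
        rw [← pow_add, Nat.add_sub_cancel' hlt.le, mul_one]
        exact heq.symm
      exact mul_left_cancel₀ (pow_ne_zero _ hx0) h1
  set S : Set K := {x | logHeight₁ x ≤ 1 ∧ x ≠ 0 ∧ ∀ n : ℕ, 0 < n → x ^ n ≠ 1} with hS
  have hSfin : S.Finite := hfin.subset fun x hx => hx.1
  obtain ⟨ε, hε, h⟩ : ∃ ε > 0, ∀ x ∈ S, ε ≤ logHeight₁ x := by
    rcases S.eq_empty_or_nonempty with h | h
    · exact ⟨1, one_pos, by simp [h]⟩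
    · obtain ⟨x, hx, hmin⟩ := Set.exists_min_image S logHeight₁ hSfin h
      exact ⟨logHeight₁ x, hpos x hx.2.1 hx.2.2, hmin⟩
  refine ⟨min ε 1, lt_min hε one_pos, fun x hx0 hx => ?_⟩
  by_cases hle : logHeight₁ x ≤ 1
  · exact (min_le_left _ _).trans (h x ⟨hle, hx0, hx⟩)
  · exact (min_le_right _ _).trans (not_le.1 hle).le

/-- A number field has the Bogomolov property. -/
theorem number_field_bogomolov {Ω : Type*} [Field Ω] [CharZero Ω] (P : IntermediateField ℚ Ω)
    [FiniteDimensional ℚ P] :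
    ∃ c > 0, ∀ x ∈ P, x ≠ 0 → (∀ n : ℕ, 0 < n → x ^ n ≠ 1) → c ≤ absLogHeight₁ x := by
  have hnf : NumberField P := {}
  obtain ⟨ε, hε, h⟩ := number_field_aux P
  have hd : (0 : ℝ) < finrank ℚ P := by exact_mod_cast finrank_pos
  refine ⟨ε / finrank ℚ P, by positivity, fun x hxP hx0 hx => ?_⟩
  have h1 : logHeight₁ (⟨x, hxP⟩ : P) = finrank ℚ P * absLogHeight₁ x :=
    logHeight₁_eq_finrank_mul P.val ⟨x, hxP⟩
  have h2 := h ⟨x, hxP⟩ (by simpa [Subtype.ext_iff] using hx0) (fun n hn h3 => hx n hn (by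
    have := congrArg (fun y : P => (y : Ω)) h3
    simpa using this))
  rw [div_le_iff₀ hd]
  linarith

end Pool.Agent.helper64.Bog
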