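import Pool.Agent.helper64.Bog.Alg

/-!
# Finiteness of the exceptional set
-/

namespace Pool.Agent.helper64.Bog

open Module IntermediateField Polynomial

variable {Ω : Type*} [Field Ω] [CharZero Ω]

theorem mem_iSup_mono {F : ℕ → IntermediateField ℚ Ω} (hmono : Monotone F) {x : Ω} :
    x ∈ (⨆ n, F n) ↔ ∃ n, x ∈ F n := by
  rw [← SetLike.mem_coe, coe_iSup_of_directed hmono.directed_le]
  simp

/-- The primitive element of a finite subfield. -/
theorem exists_prim (N' : IntermediateField ℚ Ω) [FiniteDimensional ℚ N'] :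
    ∃ θ : Ω, IsIntegral ℚ θ ∧ N' = ℚ⟮θ⟯ := by
  obtain ⟨θ, hθ⟩ := Field.exists_primitive_element ℚ N'
  refine ⟨(θ : Ω), (Algebra.IsIntegral.isIntegral (R := ℚ) θ).map N'.val, ?_⟩
  have h := lift_adjoin_simple ℚ N' θ
  have h2 : @IntermediateField.adjoin ℚ _ N' _ N'.algebra' {θ} = ⊤ := hθ
  rw [h2, lift_top] at h
  exact h

theorem mem_of_minpoly {A K : IntermediateField ℚ Ω} (hAK : A ≤ K) {θ : Ω} (hθ : IsIntegral ℚ θ)
    (hcoeff : ∀ i, ((minpoly K θ).coeff i : Ω) ∈ A) {x : Ω} (hxK : x ∈ K) (hx : x ∈ A ⊔ ℚ⟮θ⟯) :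
    x ∈ A := by
  have hθK : IsIntegral K θ := hθ.tower_top
  have hθA : IsIntegral A θ := hθ.tower_top
  set p := minpoly K θ with hp
  have hpm : p.Monic := minpoly.monic hθK
  obtain ⟨P, hP, hPdeg, hPm⟩ := lifts_and_natDegree_eq_and_monic
    (f := algebraMap A Ω) (p := p.map (algebraMap K Ω)) (by
      rw [lifts_iff_coeff_lifts]
      intro i
      rw [coeff_map]
      exact ⟨⟨_, hcoeff i⟩, rfl⟩) (hpm.map _)
  rw [natDegree_map] at hPdeg
  have hpos : 0 < p.natDegree := minpoly.natDegree_pos hθK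
  have hPθ : aeval θ P = 0 := by
    rw [aeval_def, ← eval_map, hP, eval_map, ← aeval_def, minpoly.aeval]
  rw [← restrict_eq, mem_restrictScalars, ← IntermediateField.mem_toSubalgebra,
    adjoin_simple_toSubalgebra_of_isAlgebraic hθA.isAlgebraic,
    Algebra.adjoin_singleton_eq_range_aeval] at hx
  obtain ⟨q, hq⟩ := hx
  have hq' : aeval θ q = x := hq
  have hr : aeval θ (q %ₘ P) = x := by
    rw [← hq', ← modByMonic_add_div q P, map_add, map_mul, hPθ, zero_mul, add_zero,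
      modByMonic_add_div q P]
  have hdeg : (q %ₘ P).natDegree < p.natDegree := by
    rw [← hPdeg]
    refine natDegree_modByMonic_lt _ hPm ?_
    rintro h
    rw [h, natDegree_one] at hPdeg
    omega
  set j : A →+* K := (inclusion hAK).toRingHom with hj
  set r' : K[X] := (q %ₘ P).map j - C ⟨x, hxK⟩ with hr'
  have hjc : (algebraMap K Ω).comp j = algebraMap A Ω := rfl
  have hr'θ : aeval θ r' = 0 := by
    rw [hr', map_sub, aeval_C, aeval_def, eval₂_map, hjc, ← aeval_def, hr]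
    exact sub_self x
  have hr'0 : r' = 0 := by
    refine eq_zero_of_dvd_of_natDegree_lt (minpoly.dvd K θ hr'θ) ?_
    refine lt_of_le_of_lt (natDegree_sub_le _ _) (max_lt ?_ ?_)
    · exact lt_of_le_of_lt natDegree_map_le hdeg
    · rw [natDegree_C]
      exact hpos
  have h0 := congrArg (fun f : K[X] => (algebraMap K Ω) (f.coeff 0)) hr'0
  simp only [hr', coeff_sub, coeff_map, coeff_C_zero, map_sub, coeff_zero, map_zero] at h0
  have h1 : ((q %ₘ P).coeff 0 : Ω) = x := sub_eq_zero.1 h0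
  rw [← h1]
  exact SetLike.coe_mem _

/-- Module D2: finiteness of the exceptional set, cubic part. -/
theorem eventually_not_mem (N' : IntermediateField ℚ Ω)
    [FiniteDimensional ℚ N'] (F : ℕ → IntermediateField ℚ Ω) (hmono : Monotone F)
    (u : ℕ → Ω) (hu : ∀ n, u n ∈ F (n + 1)) (hu' : ∀ n, u n ∉ F n) :
    ∃ n₀, ∀ n ≥ n₀, u n ∉ N' ⊔ F n := by
  classical
  obtain ⟨θ, hθ, rfl⟩ := exists_prim N'
  set K := ⨆ n, F n with hK
  have hex : ∀ i, ∃ n, ((minpoly K θ).coeff i : Ω) ∈ F n := fun i =>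
    (mem_iSup_mono hmono).1 (SetLike.coe_mem _)
  choose g hg using hex
  set d := (minpoly K θ).natDegree with hd
  refine ⟨(Finset.range (d + 1)).sup g, fun n hn hmem => hu' n ?_⟩
  refine mem_of_minpoly (K := K) (le_iSup F n) hθ ?_ ?_ (sup_comm (F n) ℚ⟮θ⟯ ▸ hmem)
  · intro i
    by_cases hi : i ≤ d
    · refine hmono ?_ (hg i)
      exact (Finset.le_sup (f := g) (Finset.mem_range.2 (by omega))).trans hn
    · rw [coeff_eq_zero_of_natDegree_lt (by omega)]
      exact (F n).zero_mem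
  · exact (mem_iSup_mono hmono).2 ⟨n + 1, hu n⟩

/-- Elements of a quadratic extension. -/
theorem exists_quadratic_form {k M : Type*} [Field k] [Field M] [Algebra k M]
    (F : IntermediateField k M) {u a : M} (ha : a ∈ F)
    (hu : u ^ 2 = a) {x : M} (hx : x ∈ F ⊔ k⟮u⟯) :
    ∃ g₀ ∈ F, ∃ g₁ ∈ F, x = g₀ + g₁ * u := by
  have := (exists_cubic_form F (u := u) (a := -a) (b := 0) (F.neg_mem ha) F.zero_mem
    (by rw [← hu]; ring) hx)
  obtain ⟨g₀, h₀, g₁, h₁, g₂, h₂, rfl⟩ := this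
  refine ⟨g₀ + g₂ * a, F.add_mem h₀ (F.mul_mem h₂ ha), g₁, h₁, ?_⟩
  rw [hu]
  ring

/-- Module D2: finiteness of the exceptional set, quadratic part. -/
theorem finite_quadratic (N' : IntermediateField ℚ Ω)
    [FiniteDimensional ℚ N'] (F : ℕ → IntermediateField ℚ Ω) (hmono : Monotone F)
    (s : ℕ → Ω) (hs : ∀ b c, b ≠ c → ∀ n, s b * s c ∉ F n) (hs2 : ∀ b n, s b ^ 2 ∈ F n) :
    {b : ℕ | ∃ n, s b ∈ N' ⊔ F n}.Finite := by
  classical
  obtain ⟨θ, hθ, rfl⟩ := exists_prim N'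
  set K := ⨆ n, F n with hK
  have hsK : ∀ b c, b ≠ c → s b * s c ∉ K := by
    intro b c hbc h
    obtain ⟨n, hn⟩ := (mem_iSup_mono hmono).1 h
    exact hs b c hbc n hn
  have hs2K : ∀ b, s b ^ 2 ∈ K := fun b => (mem_iSup_mono hmono).2 ⟨0, hs2 b 0⟩
  have hθK : IsIntegral K θ := hθ.tower_top
  have hfd : FiniteDimensional K K⟮θ⟯ := adjoin.finiteDimensional hθK
  have hsep : Algebra.IsSeparable K K⟮θ⟯ := inferInstance
  have hfin : Finite (IntermediateField K K⟮θ⟯) :=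
    Field.finite_intermediateField_of_exists_primitive_element K K⟮θ⟯
      (Field.exists_primitive_element K K⟮θ⟯)
  set S := {b : ℕ | ∃ n, s b ∈ ℚ⟮θ⟯ ⊔ F n} with hS
  have hmemL : ∀ b ∈ S, s b ∈ K⟮θ⟯ := by
    rintro b ⟨n, hn⟩
    have h1 : s b ∈ K ⊔ ℚ⟮θ⟯ :=
      (sup_le le_sup_right ((le_iSup F n).trans le_sup_left) : ℚ⟮θ⟯ ⊔ F n ≤ K ⊔ ℚ⟮θ⟯) hn
    rw [← restrict_eq] at h1
    exact h1
  have h1 : {b ∈ S | s b ∈ K}.Finite := by
    apply Set.Subsingleton.finite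
    rintro b ⟨-, hb⟩ c ⟨-, hc⟩
    by_contra hbc
    exact hsK b c hbc (K.mul_mem hb hc)
  have h2 : {b ∈ S | s b ∉ K}.Finite := by
    let f : ℕ → IntermediateField K K⟮θ⟯ := fun b =>
      if h : s b ∈ K⟮θ⟯ then K⟮(⟨s b, h⟩ : K⟮θ⟯)⟯ else ⊥
    refine Set.Finite.of_injOn (f := f) (t := Set.univ) (fun _ _ => Set.mem_univ _) ?_
      Set.finite_univ
    rintro b ⟨hbS, hbK⟩ c ⟨hcS, hcK⟩ hbc
    by_contra hne
    simp only [f, dif_pos (hmemL b hbS), dif_pos (hmemL c hcS)] at hbc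
    have h3 : s b ∈ K ⊔ ℚ⟮s c⟯ := by
      have h4 : (⟨s b, hmemL b hbS⟩ : K⟮θ⟯) ∈ K⟮(⟨s c, hmemL c hcS⟩ : K⟮θ⟯)⟯ := by
        rw [← hbc]
        exact mem_adjoin_simple_self K _
      rw [← mem_lift, lift_adjoin_simple] at h4
      rw [← restrict_eq]
      exact h4
    obtain ⟨x, hx, y, hy, hxy⟩ := exists_quadratic_form K (hs2K c) rfl h3
    have h5 : x * y = 0 := by
      by_contra h6
      apply hcK
      have h7 : s c = (s b ^ 2 - x ^ 2 - y ^ 2 * s c ^ 2) / (2 * (x * y)) := by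
        rw [eq_div_iff (mul_ne_zero two_ne_zero h6), hxy]
        ring
      rw [h7]
      have htwo : (2 : Ω) ∈ K := by
        have := K.algebraMap_mem 2
        rwa [map_ofNat] at this
      exact K.div_mem (K.sub_mem (K.sub_mem (hs2K b) (_root_.pow_mem hx 2))
        (K.mul_mem (_root_.pow_mem hy 2) (hs2K c))) (K.mul_mem htwo (K.mul_mem hx hy))
    rcases mul_eq_zero.1 h5 with h | h
    · apply hsK b c hne
      rw [hxy, h, zero_add, mul_assoc, ← sq]
      exact K.mul_mem hy (hs2K c)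
    · apply hbK
      rw [hxy, h, zero_mul, add_zero]
      exact hx
  refine (h1.union h2).subset fun b hb => ?_
  by_cases h : s b ∈ K
  · exact Or.inl ⟨hb, h⟩
  · exact Or.inr ⟨hb, h⟩

end Pool.Agent.helper64.Bog
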