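import Mathlib

/-!
# Local closeness for a totally ramified cubic Kummer step
-/

namespace Pool.Agent.helper64.Bog

open Module

section

variable {M : Type*} [Field M] [CharZero M] {w : AbsoluteValue M ℝ}

omit [CharZero M] in
theorem w_neg (a : M) : w a = w (-a) := (w.map_neg a).symm

omit [CharZero M] in
theorem ultra_add (hw : IsNonarchimedean w) {a b : M} (h : a ≠ 0 → b ≠ 0 → w a ≠ w b) :
    w (a + b) = max (w a) (w b) := by
  by_cases ha : a = 0
  · subst ha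
    simp
  by_cases hb : b = 0
  · subst hb
    simp
  exact IsNonarchimedean.add_eq_max_of_ne' w hw w_neg (h ha hb)

/-- Values of rational numbers. -/
theorem w_natCast_eq_one (hw : IsNonarchimedean w) (h3 : w 3 < 1) {n : ℕ} (hn : ¬ 3 ∣ n) :
    w (n : M) = 1 := by
  have hle : ∀ m : ℤ, w (m : M) ≤ 1 := by
    intro m
    have h0 : ∀ k : ℕ, w (k : M) ≤ 1 := by
      intro k
      induction k with
      | zero => simp
      | succ k ih =>
        rw [Nat.cast_succ]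
        exact (hw _ _).trans (max_le ih (by simp))
    obtain ⟨k, rfl | rfl⟩ := Int.eq_nat_or_neg m
    · simpa using h0 k
    · rw [Int.cast_neg, w.map_neg]
      simpa using h0 k
  have hcop : IsCoprime (n : ℤ) 3 := by
    have : Nat.Coprime n 3 := ((Nat.Prime.coprime_iff_not_dvd Nat.prime_three).2 hn).symm
    exact_mod_cast Nat.isCoprime_iff_coprime.2 this
  obtain ⟨a, b, hab⟩ := hcop
  have h1 : (a : M) * n + b * 3 = 1 := by exact_mod_cast congrArg (Int.cast : ℤ → M) hab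
  have h2 : (1 : ℝ) ≤ max (w ((a : M) * n)) (w ((b : M) * 3)) := by
    have := hw ((a : M) * n) ((b : M) * 3)
    rw [h1, w.map_one] at this
    exact this
  have h4 : w ((b : M) * 3) < 1 := by
    rw [map_mul]
    calc w (b : M) * w 3 ≤ 1 * w 3 := by gcongr; exact hle b
      _ < 1 := by simpa using h3
  have h5 : 1 ≤ w ((a : M) * n) := by
    rcases le_max_iff.1 h2 with h | h
    · exact h
    · exact absurd h (not_le.2 h4)
  rw [map_mul] at h5
  have h6 : w (n : M) ≤ 1 := by simpa using hle n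
  refine le_antisymm h6 ?_
  calc (1 : ℝ) ≤ w (a : M) * w (n : M) := h5
    _ ≤ 1 * w (n : M) := by gcongr; exact hle a
    _ = w (n : M) := one_mul _

theorem w_intCast (hw : IsNonarchimedean w) (h3 : w 3 < 1) {n : ℤ} (hn : n ≠ 0) :
    ∃ k : ℤ, w (n : M) = w 3 ^ k := by
  have hna : n.natAbs ≠ 0 := Int.natAbs_ne_zero.2 hn
  obtain ⟨k, m, hm, hk⟩ := Nat.exists_eq_pow_mul_and_not_dvd hna 3 (by norm_num)
  refine ⟨k, ?_⟩
  have h1 : w (n : M) = w ((n.natAbs : ℕ) : M) := by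
    rcases Int.natAbs_eq n with h | h
    · conv_lhs => rw [h]
      simp
    · conv_lhs => rw [h]
      rw [Int.cast_neg, w.map_neg]
      simp
  rw [h1, hk, Nat.cast_mul, Nat.cast_pow, map_mul, map_pow, w_natCast_eq_one hw h3 hm, mul_one,
    zpow_natCast]
  norm_num

theorem w_ratCast (hw : IsNonarchimedean w) (h3 : w 3 < 1) {q : ℚ} (hq : q ≠ 0) :
    ∃ k : ℤ, w (q : M) = w 3 ^ k := by
  obtain ⟨a, ha⟩ := w_intCast (w := w) hw h3 (Rat.num_ne_zero.2 hq)
  obtain ⟨b, hb⟩ := w_intCast (w := w) hw h3 (n := (q.den : ℤ)) (by exact_mod_cast q.den_nz)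
  refine ⟨a - b, ?_⟩
  have h3' : w (3 : M) ≠ 0 := by simp
  rw [Rat.cast_def, map_div₀, zpow_sub₀ h3', ← ha, ← hb]
  simp

/-- If `w g ^ A = w 3 ^ j` with `A` coprime to `j`, the powers of `g` are linearly independent. -/
theorem linearIndependent_pow (hw : IsNonarchimedean w) (h3 : w 3 < 1) {g : M} {A : ℕ}
    {j : ℤ} (hg : w g ^ A = w 3 ^ j) (hj : IsCoprime (A : ℤ) j) :
    LinearIndependent ℚ fun i : Fin A => g ^ (i : ℕ) := by
  classical
  have hc0 : 0 < w (3 : M) := by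
    have : w (3 : M) ≠ 0 := by simp
    exact lt_of_le_of_ne (apply_nonneg w _) this.symm
  rw [Fintype.linearIndependent_iff]
  intro q hq
  by_contra hne
  push Not at hne
  obtain ⟨i₀, hi₀⟩ := hne
  have hA : A ≠ 0 := by
    rintro rfl
    exact i₀.elim0
  have hg0 : g ≠ 0 := by
    rintro rfl
    rw [map_zero, zero_pow hA] at hg
    exact (zpow_pos hc0 j).ne hg
  -- pick the maximal term
  obtain ⟨k, -, hk⟩ := Finset.exists_max_image Finset.univ
    (fun i : Fin A => w (q i • g ^ (i : ℕ))) ⟨i₀, Finset.mem_univ _⟩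
  have hk0 : 0 < w (q k • g ^ (k : ℕ)) := by
    refine lt_of_lt_of_le ?_ (hk i₀ (Finset.mem_univ _))
    have : q i₀ • g ^ (i₀ : ℕ) ≠ 0 := smul_ne_zero hi₀ (pow_ne_zero _ hg0)
    exact w.pos this
  have hqk : q k ≠ 0 := by
    intro h
    rw [h, zero_smul, map_zero] at hk0
    exact lt_irrefl _ hk0
  have huniq : ∀ i ∈ Finset.univ, i ≠ k → w (q i • g ^ (i : ℕ)) < w (q k • g ^ (k : ℕ)) := by
    intro i _ hik
    refine lt_of_le_of_ne (hk i (Finset.mem_univ _)) ?_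
    intro heq
    have hqi : q i ≠ 0 := by
      intro h
      rw [h, zero_smul, map_zero] at heq
      exact hk0.ne heq
    obtain ⟨a, ha⟩ := w_ratCast (w := w) hw h3 hqi
    obtain ⟨b, hb⟩ := w_ratCast (w := w) hw h3 hqk
    have h1 : w (q i • g ^ (i : ℕ)) ^ A = w 3 ^ (a * A + j * i) := by
      rw [Rat.smul_def, map_mul, map_pow, ha, mul_pow, ← pow_mul, mul_comm (i : ℕ) A, pow_mul, hg,
        ← zpow_natCast, ← zpow_natCast, ← zpow_mul, ← zpow_mul, ← zpow_add₀ hc0.ne']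
    have h2 : w (q k • g ^ (k : ℕ)) ^ A = w 3 ^ (b * A + j * k) := by
      rw [Rat.smul_def, map_mul, map_pow, hb, mul_pow, ← pow_mul, mul_comm (k : ℕ) A, pow_mul, hg,
        ← zpow_natCast, ← zpow_natCast, ← zpow_mul, ← zpow_mul, ← zpow_add₀ hc0.ne']
    rw [heq, h2] at h1
    have h4 := (zpow_right_strictAnti₀ hc0 h3).injective h1
    have h5 : (A : ℤ) ∣ j * ((i : ℤ) - k) := ⟨b - a, by linarith⟩
    have h6 : (A : ℤ) ∣ ((i : ℤ) - k) := hj.dvd_of_dvd_mul_left h5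
    have h7 : |((i : ℤ) - k)| < A := by
      rw [abs_lt]
      have := i.2
      have := k.2
      constructor <;> omega
    have h8 := Int.eq_zero_of_abs_lt_dvd h6 h7
    apply hik
    ext
    omega
  have hsum := IsNonarchimedean.apply_sum_eq_of_lt hw w_neg (Finset.mem_univ k) huniq
  rw [hq, map_zero] at hsum
  exact hk0.ne hsum

/-- The value group of a field of small degree. -/
theorem no_small_value (hw : IsNonarchimedean w) (h3 : w 3 < 1) {L : IntermediateField ℚ M}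
    [FiniteDimensional ℚ L] {A : ℕ} (hA : finrank ℚ L < A) {g : M} (hgL : g ∈ L) {j : ℤ}
    (hj : IsCoprime (A : ℤ) j) : w g ^ A ≠ w 3 ^ j := by
  intro hg
  have hli := linearIndependent_pow hw h3 hg hj
  have hli' : LinearIndependent ℚ fun i : Fin A => (⟨g, hgL⟩ : L) ^ (i : ℕ) := by
    refine LinearIndependent.of_comp L.val.toLinearMap ?_
    have he : (L.val.toLinearMap ∘ fun i : Fin A => (⟨g, hgL⟩ : L) ^ (i : ℕ)) =
        fun i : Fin A => g ^ (i : ℕ) := by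
      funext i
      change ((⟨g, hgL⟩ ^ (i : ℕ) : L) : M) = g ^ (i : ℕ)
      rw [SubmonoidClass.coe_pow]
    rw [he]
    exact hli
  have := hli'.fintype_card_le_finrank
  rw [Fintype.card_fin] at this
  omega

/-- Terms with distinct values: each is bounded by the sum. -/
theorem terms_le (hw : IsNonarchimedean w) (h3 : w 3 < 1) {L : IntermediateField ℚ M}
    [FiniteDimensional ℚ L] {m : ℕ} (hA : finrank ℚ L < 3 ^ (m + 1)) {α : M}
    (hα : w α ^ (3 ^ (m + 1)) = w 3 ∨ w α ^ (3 ^ (m + 1)) * w 3 = 1)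
    {g₀ g₁ g₂ : M} (h₀ : g₀ ∈ L) (h₁ : g₁ ∈ L) (h₂ : g₂ ∈ L) :
    w g₀ ≤ w (g₀ + g₁ * α + g₂ * α ^ 2) ∧ w (g₁ * α) ≤ w (g₀ + g₁ * α + g₂ * α ^ 2) ∧
      w (g₂ * α ^ 2) ≤ w (g₀ + g₁ * α + g₂ * α ^ 2) := by
  have hc0 : 0 < w (3 : M) := by
    have : w (3 : M) ≠ 0 := by simp
    exact lt_of_le_of_ne (apply_nonneg w _) this.symm
  have hα' : ∃ ε : ℤ, (ε = 1 ∨ ε = -1) ∧ w α ^ (3 ^ (m + 1)) = w 3 ^ ε := by
    rcases hα with h | h
    · exact ⟨1, Or.inl rfl, by rw [h, zpow_one]⟩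
    · exact ⟨-1, Or.inr rfl, by rw [zpow_neg_one]; exact eq_inv_of_mul_eq_one_left h⟩
  obtain ⟨ε, hε, hαε⟩ := hα'
  have hα0 : α ≠ 0 := by
    rintro rfl
    rw [map_zero, zero_pow (by positivity)] at hαε
    exact (zpow_pos hc0 ε).ne hαε
  have hcop : ∀ r : ℤ, (r = 1 ∨ r = 2 ∨ r = -1 ∨ r = -2) →
      IsCoprime (((3 ^ (m + 1) : ℕ)) : ℤ) (ε * r) := by
    intro r hr
    push_cast
    apply IsCoprime.pow_left
    have h3p : Prime (3 : ℤ) := Int.prime_three
    rw [Prime.coprime_iff_not_dvd h3p]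
    rcases hε with rfl | rfl <;> rcases hr with rfl | rfl | rfl | rfl <;> decide
  -- no coincidence
  have key : ∀ g ∈ L, ∀ r : ℤ, (r = 1 ∨ r = 2 ∨ r = -1 ∨ r = -2) → w g ≠ w α ^ r := by
    intro g hg r hr h
    refine no_small_value hw h3 hA hg (hcop r hr) ?_
    rw [h, ← zpow_natCast, ← zpow_mul, mul_comm r, zpow_mul, zpow_natCast, hαε, ← zpow_mul]
  have hwα : w α ≠ 0 := by simpa using hα0
  -- pairwise distinct values
  have d01 : g₀ ≠ 0 → g₁ * α ≠ 0 → w g₀ ≠ w (g₁ * α) := by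
    intro ha hb h
    have hg1 : g₁ ≠ 0 := left_ne_zero_of_mul hb
    refine key (g₀ / g₁) (L.div_mem h₀ h₁) 1 (by norm_num) ?_
    rw [map_div₀, h, map_mul, zpow_one]
    have : w g₁ ≠ 0 := by simpa using hg1
    field_simp
  have d02 : g₀ ≠ 0 → g₂ * α ^ 2 ≠ 0 → w g₀ ≠ w (g₂ * α ^ 2) := by
    intro ha hb h
    have hg1 : g₂ ≠ 0 := left_ne_zero_of_mul hb
    refine key (g₀ / g₂) (L.div_mem h₀ h₂) 2 (by norm_num) ?_
    rw [map_div₀, h, map_mul, map_pow]
    have : w g₂ ≠ 0 := by simpa using hg1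
    have h2 : w α ^ (2 : ℤ) = w α ^ 2 := by norm_cast
    rw [h2]
    field_simp
  have d12 : g₁ * α ≠ 0 → g₂ * α ^ 2 ≠ 0 → w (g₁ * α) ≠ w (g₂ * α ^ 2) := by
    intro ha hb h
    have hg1 : g₂ ≠ 0 := left_ne_zero_of_mul hb
    refine key (g₁ / g₂) (L.div_mem h₁ h₂) 1 (by norm_num) ?_
    rw [map_mul, map_mul, map_pow] at h
    have h4 : w g₂ ≠ 0 := by simpa using hg1
    have h5 : w g₁ = w g₂ * w α := by
      apply mul_right_cancel₀ hwα
      rw [h]
      ring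
    rw [map_div₀, h5, zpow_one]
    field_simp
  -- combine
  have e1 : w (g₀ + g₁ * α) = max (w g₀) (w (g₁ * α)) := ultra_add hw d01
  have e2 : w (g₀ + g₁ * α + g₂ * α ^ 2) = max (w (g₀ + g₁ * α)) (w (g₂ * α ^ 2)) := by
    apply ultra_add hw
    intro hs hb
    rw [e1]
    have hs' : w (g₀ + g₁ * α) ≠ 0 := by simpa using hs
    rw [e1] at hs'
    rcases max_choice (w g₀) (w (g₁ * α)) with h | h
    · rw [h] at hs' ⊢
      exact d02 (by simpa using hs') hb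
    · rw [h] at hs' ⊢
      refine d12 ?_ hb
      intro h0
      rw [h0, map_zero] at hs'
      exact hs' rfl
  rw [e2, e1]
  exact ⟨le_max_of_le_left (le_max_left _ _), le_max_of_le_left (le_max_right _ _),
    le_max_right _ _⟩

omit [CharZero M] in
theorem w_eq_one_of_cube {ω : M} (h : ω ^ 2 + ω + 1 = 0) : w ω = 1 := by
  have h1 : ω ^ 3 = 1 := by
    have : ω ^ 3 - 1 = (ω - 1) * (ω ^ 2 + ω + 1) := by ring
    rw [h, mul_zero] at this
    exact sub_eq_zero.1 this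
  have h2 : w ω ^ 3 = 1 := by rw [← map_pow, h1, map_one]
  exact (pow_eq_one_iff_of_nonneg (apply_nonneg w _) (by norm_num)).1 h2

/-- **Closeness.** -/
theorem closeness (hw : IsNonarchimedean w) (h3 : w 3 < 1) {L : IntermediateField ℚ M}
    [FiniteDimensional ℚ L] {m : ℕ} (hA : finrank ℚ L < 3 ^ (m + 1)) {α ω : M}
    (hα : w α ^ (3 ^ (m + 1)) = w 3 ∨ w α ^ (3 ^ (m + 1)) * w 3 = 1)
    (hω : ω ^ 2 + ω + 1 = 0)
    {g₀ g₁ g₂ : M} (h₀ : g₀ ∈ L) (h₁ : g₁ ∈ L) (h₂ : g₂ ∈ L) :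
    w ((g₀ + g₁ * (ω * α) + g₂ * (ω * α) ^ 2) - (g₀ + g₁ * α + g₂ * α ^ 2)) ^ 2 ≤
      w 3 * w (g₀ + g₁ * α + g₂ * α ^ 2) ^ 2 := by
  obtain ⟨-, t1, t2⟩ := terms_le hw h3 hA hα h₀ h₁ h₂
  set γ := g₀ + g₁ * α + g₂ * α ^ 2 with hγ
  have hw1 : w ω = 1 := w_eq_one_of_cube hω
  have e : (g₀ + g₁ * (ω * α) + g₂ * (ω * α) ^ 2) - γ =
      (ω - 1) * (g₁ * α + (ω + 1) * (g₂ * α ^ 2)) := by
    rw [hγ]; ring
  have hsq : w (ω - 1) ^ 2 = w 3 := by
    have : (ω - 1) ^ 2 = -(3 * ω) := by linear_combination hω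
    rw [← map_pow, this, w.map_neg, map_mul, hw1, mul_one]
  have hω1 : w (ω + 1) ≤ 1 := by
    refine (hw _ _).trans (max_le hw1.le ?_)
    simp
  have hb : w (g₁ * α + (ω + 1) * (g₂ * α ^ 2)) ≤ w γ := by
    refine (hw _ _).trans (max_le t1 ?_)
    rw [map_mul]
    calc w (ω + 1) * w (g₂ * α ^ 2) ≤ 1 * w γ := by gcongr
      _ = w γ := one_mul _
  rw [e, map_mul, mul_pow, hsq]
  gcongr

end

end Pool.Agent.helper64.Bog
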