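import Mathlib

/-!
# Elementary field theory used in the key step
-/

namespace Pool.Agent.helper64.Bog

open Module IntermediateField Polynomial

section

variable {k M : Type*} [Field k] [Field M] [Algebra k M]

/-- The intermediate field on which two algebra homomorphisms agree. -/
def eqField (f g : M →ₐ[k] M) : IntermediateField k M where
  carrier := {x | f x = g x}
  mul_mem' := by
    intro a b ha hb
    simp only [Set.mem_ofPred_eq] at *
    rw [map_mul, map_mul, ha, hb]
  add_mem' := by
    intro a b ha hb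
    simp only [Set.mem_ofPred_eq] at *
    rw [map_add, map_add, ha, hb]
  algebraMap_mem' := by
    intro r
    simp only [Set.mem_ofPred_eq]
    rw [f.commutes, g.commutes]
  inv_mem' := by
    intro a ha
    simp only [Set.mem_ofPred_eq] at *
    rw [map_inv₀, map_inv₀, ha]

theorem mem_eqField {f g : M →ₐ[k] M} {x : M} : x ∈ eqField f g ↔ f x = g x := Iff.rfl

theorem exists_moving [FiniteDimensional k M] [IsGalois k M] (E : IntermediateField k M) {x : M}
    (hx : x ∉ E) : ∃ g : M ≃ₐ[k] M, (∀ y ∈ E, g y = y) ∧ g x ≠ x := by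
  by_contra hcon
  push Not at hcon
  apply hx
  rw [← IsGalois.fixedField_fixingSubgroup E]
  rw [IntermediateField.mem_fixedField_iff]
  intro g hg
  exact hcon g (fun y hy => (IntermediateField.mem_fixingSubgroup_iff _ _).1 hg y hy)

theorem restrict_eq (F : IntermediateField k M) (t : M) :
    (IntermediateField.adjoin F ({t} : Set M)).restrictScalars k = F ⊔ k⟮t⟯ :=
  restrictScalars_adjoin_eq_sup k F ({t} : Set M)

theorem finrank_sup_adjoin_le (F : IntermediateField k M) [FiniteDimensional k F] {t : M}
    {p : F[X]} (hp : p.Monic) (h : aeval t p = 0) :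
    finrank k ↥(F ⊔ k⟮t⟯) ≤ finrank k F * p.natDegree := by
  have hint : IsIntegral F t := ⟨p, hp, h⟩
  rw [← restrict_eq]
  have h1 : finrank k ↥((IntermediateField.adjoin F ({t} : Set M)).restrictScalars k) =
      finrank k ↥(IntermediateField.adjoin F ({t} : Set M)) := rfl
  have hfd : FiniteDimensional F (IntermediateField.adjoin F ({t} : Set M)) := adjoin.finiteDimensional hint
  rw [h1, ← Module.finrank_mul_finrank k F, adjoin.finrank hint]
  exact Nat.mul_le_mul_left _ (natDegree_le_of_dvd (minpoly.dvd F t h) hp.ne_zero)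

/-- Elements of a field generated by a cubic element. -/
theorem exists_cubic_form (F : IntermediateField k M) {u : M} {a b : M} (ha : a ∈ F) (hb : b ∈ F)
    (hu : u ^ 3 + a * u + b = 0) {x : M} (hx : x ∈ F ⊔ k⟮u⟯) :
    ∃ g₀ ∈ F, ∃ g₁ ∈ F, ∃ g₂ ∈ F, x = g₀ + g₁ * u + g₂ * u ^ 2 := by
  set a' : F := ⟨a, ha⟩
  set b' : F := ⟨b, hb⟩
  set q : F[X] := X ^ 3 + C a' * X + C b' with hq
  have hqm : q.Monic := by
    rw [hq]
    monicity!
  have hq3 : q.natDegree = 3 := by
    rw [hq]
    compute_degree!
  have hqu : aeval u q = 0 := by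
    rw [hq]
    simp only [map_add, map_mul, map_pow, aeval_X, aeval_C]
    exact hu
  have hint : IsIntegral F u := ⟨q, hqm, hqu⟩
  rw [← restrict_eq, mem_restrictScalars, ← IntermediateField.mem_toSubalgebra,
    adjoin_simple_toSubalgebra_of_isAlgebraic hint.isAlgebraic,
    Algebra.adjoin_singleton_eq_range_aeval] at hx
  obtain ⟨p, hp⟩ := hx
  have hp' : aeval u p = x := hp
  have hdiv := modByMonic_add_div p q
  have hr : aeval u (p %ₘ q) = x := by
    rw [← hp', ← hdiv, map_add, map_mul, hqu, zero_mul, add_zero, hdiv]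
  have hdeg : (p %ₘ q).natDegree < 3 := by
    rw [← hq3]
    exact natDegree_modByMonic_lt _ hqm (by
      intro h
      rw [h, natDegree_one] at hq3
      norm_num at hq3)
  rw [aeval_eq_sum_range' hdeg] at hr
  refine ⟨(p %ₘ q).coeff 0, SetLike.coe_mem _, (p %ₘ q).coeff 1, SetLike.coe_mem _,
    (p %ₘ q).coeff 2, SetLike.coe_mem _, ?_⟩
  rw [← hr]
  simp [Finset.sum_range_succ, Algebra.smul_def]

end

end Pool.Agent.helper64.Bog
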