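import Pool.Agent.helper64.Bog.Local

/-!
# Chordal distance for a nonarchimedean absolute value
-/

namespace Pool.Agent.helper64.Bog

variable {M : Type*} [Field M] {w : AbsoluteValue M ℝ}

/-- The chordal distance. -/
noncomputable def chord (w : AbsoluteValue M ℝ) (x y : M) : ℝ :=
  w (x - y) / (max (w x) 1 * max (w y) 1)

theorem chord_nonneg (x y : M) : 0 ≤ chord w x y := by
  unfold chord
  have h1 : 0 ≤ max (w x) 1 := le_max_of_le_right zero_le_one
  have h2 : 0 ≤ max (w y) 1 := le_max_of_le_right zero_le_one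
  exact div_nonneg (apply_nonneg w _) (mul_nonneg h1 h2)

theorem w_sub_eq (x y : M) : w (x - y) = chord w x y * (max (w x) 1 * max (w y) 1) := by
  unfold chord
  have h1 : 0 < max (w x) 1 := lt_max_of_lt_right zero_lt_one
  have h2 : 0 < max (w y) 1 := lt_max_of_lt_right zero_lt_one
  field_simp

theorem w_sub_le (hw : IsNonarchimedean w) (x y : M) : w (x - y) ≤ max (w x) (w y) := by
  rw [sub_eq_add_neg]
  refine (hw _ _).trans ?_
  rw [w.map_neg]

theorem chord_le_one (hw : IsNonarchimedean w) (x y : M) : chord w x y ≤ 1 := by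
  unfold chord
  have h1 : 1 ≤ max (w x) 1 := le_max_right _ _
  have h2 : 1 ≤ max (w y) 1 := le_max_right _ _
  have h3 : w x ≤ max (w x) 1 := le_max_left _ _
  have h4 : w y ≤ max (w y) 1 := le_max_left _ _
  rw [div_le_one (by positivity)]
  refine (w_sub_le hw x y).trans (max_le ?_ ?_) <;> nlinarith

theorem chord_cube (hw : IsNonarchimedean w) (x y : M) :
    chord w (x ^ 3) (y ^ 3) ≤ max (chord w x y ^ 3) (w 3 * chord w x y) := by
  have hX : 1 ≤ max (w x) 1 := le_max_right _ _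
  have hY : 1 ≤ max (w y) 1 := le_max_right _ _
  have hx : w x ≤ max (w x) 1 := le_max_left _ _
  have hy : w y ≤ max (w y) 1 := le_max_left _ _
  have e1 : max (w (x ^ 3)) 1 = max (w x) 1 ^ 3 := by
    rw [map_pow]
    rcases le_total (w x) 1 with h | h
    · rw [max_eq_right h, max_eq_right (pow_le_one₀ (apply_nonneg w _) h), one_pow]
    · rw [max_eq_left h, max_eq_left (one_le_pow₀ h)]
  have e2 : max (w (y ^ 3)) 1 = max (w y) 1 ^ 3 := by
    rw [map_pow]
    rcases le_total (w y) 1 with h | h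
    · rw [max_eq_right h, max_eq_right (pow_le_one₀ (apply_nonneg w _) h), one_pow]
    · rw [max_eq_left h, max_eq_left (one_le_pow₀ h)]
  set X := max (w x) 1
  set Y := max (w y) 1
  set c := chord w x y with hc
  have hc0 : 0 ≤ c := chord_nonneg x y
  have hsub : w (x - y) = c * (X * Y) := w_sub_eq x y
  have e3 : x ^ 3 - y ^ 3 = (x - y) ^ 3 + 3 * (x * y * (x - y)) := by ring
  have e4 : w (x ^ 3 - y ^ 3) ≤ max (c ^ 3) (w 3 * c) * (X ^ 3 * Y ^ 3) := by
    rw [e3]
    refine (hw _ _).trans (max_le ?_ ?_)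
    · rw [map_pow, hsub]
      calc (c * (X * Y)) ^ 3 = c ^ 3 * (X ^ 3 * Y ^ 3) := by ring
        _ ≤ _ := by gcongr; exact le_max_left _ _
    · rw [map_mul, map_mul, map_mul, hsub]
      have h3 : 0 ≤ w (3 : M) := apply_nonneg w _
      calc w 3 * (w x * w y * (c * (X * Y))) ≤ w 3 * (X * Y * (c * (X * Y))) := by gcongr
        _ = (w 3 * c) * (X ^ 2 * Y ^ 2) := by ring
        _ ≤ max (c ^ 3) (w 3 * c) * (X ^ 3 * Y ^ 3) := by
          have hX2 : X ^ 2 ≤ X ^ 3 := pow_le_pow_right₀ hX (by norm_num)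
          have hY2 : Y ^ 2 ≤ Y ^ 3 := pow_le_pow_right₀ hY (by norm_num)
          have hm : w 3 * c ≤ max (c ^ 3) (w 3 * c) := le_max_right _ _
          gcongr
  unfold chord
  rw [e1, e2, div_le_iff₀ (by positivity)]
  exact e4

theorem chord_pow_three (hw : IsNonarchimedean w) (h3 : w 3 ≤ 1) (x y : M) (n : ℕ) :
    chord w (x ^ 3 ^ n) (y ^ 3 ^ n) ≤ max (chord w x y ^ 3 ^ n) (w 3) := by
  have h30 : 0 ≤ w (3 : M) := apply_nonneg w _
  induction n with
  | zero => simp
  | succ n ih =>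
    rw [pow_succ 3 n, pow_mul, pow_mul]
    refine (chord_cube hw _ _).trans ?_
    have hc0 : 0 ≤ chord w (x ^ 3 ^ n) (y ^ 3 ^ n) := chord_nonneg _ _
    have hc1 := chord_le_one hw (x ^ 3 ^ n) (y ^ 3 ^ n)
    refine max_le ?_ ?_
    · calc chord w (x ^ 3 ^ n) (y ^ 3 ^ n) ^ 3 ≤ (max (chord w x y ^ 3 ^ n) (w 3)) ^ 3 := by gcongr
        _ ≤ _ := by
          rcases max_choice (chord w x y ^ 3 ^ n) (w 3) with h | h
          · rw [h, ← pow_mul]
            exact le_max_left _ _
          · rw [h]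
            refine le_max_of_le_right ?_
            exact pow_le_of_le_one h30 h3 (by norm_num)
    · refine le_max_of_le_right ?_
      exact mul_le_of_le_one_right h30 hc1

/-- Amplification: if `chord x y ^ (2 k) ≤ w 3` then the `3^(3k)`-th powers are very close. -/
theorem chord_amplify (hw : IsNonarchimedean w) (h3 : w 3 ≤ 1) (x y : M) {k : ℕ}
    (h : chord w x y ^ (2 * k) ≤ w 3) :
    chord w (x ^ 3 ^ (3 * k)) (y ^ 3 ^ (3 * k)) ≤ w 3 ^ (k + 1) := by
  have h30 : 0 ≤ w (3 : M) := apply_nonneg w _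
  have hc0 : 0 ≤ chord w x y := chord_nonneg _ _
  have hc1 := chord_le_one hw x y
  have h1 : chord w (x ^ 3 ^ (2 * k)) (y ^ 3 ^ (2 * k)) ≤ w 3 := by
    refine (chord_pow_three hw h3 x y (2 * k)).trans (max_le ?_ le_rfl)
    refine (pow_le_pow_of_le_one hc0 hc1 ?_).trans h
    exact (Nat.lt_pow_self (by norm_num)).le
  have h2 : ∀ j, chord w (x ^ 3 ^ (2 * k + j)) (y ^ 3 ^ (2 * k + j)) ≤ w 3 ^ (j + 1) := by
    intro j
    induction j with
    | zero => simpa using h1
    | succ j ih =>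
      rw [← add_assoc, pow_succ 3 (2 * k + j), pow_mul, pow_mul]
      refine (chord_cube hw _ _).trans ?_
      have hd0 : 0 ≤ chord w (x ^ 3 ^ (2 * k + j)) (y ^ 3 ^ (2 * k + j)) := chord_nonneg _ _
      refine max_le ?_ ?_
      · calc chord w (x ^ 3 ^ (2 * k + j)) (y ^ 3 ^ (2 * k + j)) ^ 3 ≤ (w 3 ^ (j + 1)) ^ 3 := by
              gcongr
          _ = w 3 ^ ((j + 1) * 3) := by rw [← pow_mul]
          _ ≤ w 3 ^ (j + 1 + 1) := pow_le_pow_of_le_one h30 h3 (by omega)
      · calc w 3 * chord w (x ^ 3 ^ (2 * k + j)) (y ^ 3 ^ (2 * k + j)) ≤ w 3 * w 3 ^ (j + 1) := by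
              gcongr
          _ = w 3 ^ (j + 1 + 1) := by rw [pow_succ' (w 3) (j + 1)]
  have := h2 k
  rwa [show 2 * k + k = 3 * k by ring] at this

theorem w_sum_le {ι : Type*} (hw : IsNonarchimedean w) (s : Finset ι) (f : ι → M) {C : ℝ}
    (hC : 0 ≤ C) (h : ∀ i ∈ s, w (f i) ≤ C) : w (∑ i ∈ s, f i) ≤ C := by
  classical
  induction s using Finset.induction_on with
  | empty => simpa using hC
  | insert a s ha ih =>
    rw [Finset.sum_insert ha]
    exact (hw _ _).trans (max_le (h a (Finset.mem_insert_self _ _))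
      (ih fun i hi => h i (Finset.mem_insert_of_mem hi)))

open Polynomial in
theorem w_coeff_prod_le (hw : IsNonarchimedean w) (R : Finset M) (i : ℕ) :
    w ((∏ y ∈ R, (X - C y)).coeff i) ≤ ∏ y ∈ R, max (w y) 1 := by
  classical
  induction R using Finset.induction_on generalizing i with
  | empty =>
    simp only [Finset.prod_empty]
    rw [coeff_one]
    split_ifs <;> simp
  | insert a s ha ih =>
    rw [Finset.prod_insert ha, Finset.prod_insert ha, sub_mul, coeff_sub, coeff_C_mul]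
    have hB : 0 ≤ ∏ y ∈ s, max (w y) 1 := Finset.prod_nonneg fun y _ => le_max_of_le_right zero_le_one
    have h1 : 1 ≤ max (w a) 1 := le_max_right _ _
    refine (w_sub_le hw _ _).trans (max_le ?_ ?_)
    · have : w ((X * ∏ y ∈ s, (X - C y)).coeff i) ≤ ∏ y ∈ s, max (w y) 1 := by
        cases i with
        | zero => simpa using hB
        | succ i => rw [coeff_X_mul]; exact ih i
      refine this.trans ?_
      exact le_mul_of_one_le_left hB h1
    · rw [map_mul]
      have := ih i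
      have h2 : w a ≤ max (w a) 1 := le_max_left _ _
      have h3 : 0 ≤ w a := apply_nonneg w _
      gcongr

/-- Pigeonhole. -/
theorem exists_chord_small {R : Finset M} {x : M} (hR : R.Nonempty)
    (h30 : 0 < w (3 : M))
    (h : (∏ y ∈ R, chord w x y) ^ 2 ≤ w 3) : ∃ y ∈ R, chord w x y ^ (2 * R.card) ≤ w 3 := by
  by_contra hcon
  push Not at hcon
  have h1 : ∏ _y ∈ R, w (3 : M) < ∏ y ∈ R, chord w x y ^ (2 * R.card) :=
    Finset.prod_lt_prod_of_nonempty (fun _ _ => h30) hcon hR
  rw [Finset.prod_const, Finset.prod_pow, pow_mul] at h1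
  exact absurd h1 (not_lt.2 (pow_le_pow_left₀ (sq_nonneg _) h _))

end Pool.Agent.helper64.Bog
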