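import Mathlib

/-!
# Absolute heights: independence of the field, Galois invariance, product formula inequality
-/

namespace Pool.Agent.helper64.Bog

open NumberField Height Module

/-- A product over infinite places with multiplicities is a product over embeddings. -/
theorem prod_infinitePlace_eq_prod_embeddings {K : Type*} [Field K] [NumberField K]
    (f : InfinitePlace K → ℝ) :
    ∏ v : InfinitePlace K, f v ^ v.mult = ∏ φ : K →+* ℂ, f (InfinitePlace.mk φ) := by
  classical
  rw [← Finset.prod_fiberwise (Finset.univ : Finset (K →+* ℂ)) InfinitePlace.mk]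
  refine Finset.prod_congr rfl fun v _ => ?_
  rw [Finset.prod_congr rfl (g := fun _ => f v), Finset.prod_const, InfinitePlace.card_filter_mk_eq]
  intro φ hφ
  rw [(Finset.mem_filter.1 hφ).2]

/-- Every embedding of `K` has `[L : K]` extensions to `L`. -/
theorem prod_embeddings_comp {K L : Type*} [Field K] [NumberField K] [Field L] [NumberField L]
    [Algebra K L] (g : (K →+* ℂ) → ℝ) :
    ∏ φ : L →+* ℂ, g (φ.comp (algebraMap K L)) = (∏ ψ : K →+* ℂ, g ψ) ^ finrank K L := by
  classical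
  rw [← Finset.prod_fiberwise (Finset.univ : Finset (L →+* ℂ)) (fun φ => φ.comp (algebraMap K L)),
    ← Finset.prod_pow]
  refine Finset.prod_congr rfl fun ψ _ => ?_
  rw [Finset.prod_congr rfl (g := fun _ => g ψ), Finset.prod_const]
  · congr 1
    let := ψ.toAlgebra
    rw [← AlgHom.card K L ℂ, ← Finset.card_univ]
    refine Finset.card_bij' (fun φ hφ => ⟨φ, fun r => ?_⟩) (fun φ _ => φ.toRingHom) ?_ ?_ ?_ ?_
    · have := (Finset.mem_filter.1 hφ).2
      exact congrArg (fun f => f r) this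
    · intro φ hφ; exact Finset.mem_univ _
    · intro φ _
      refine Finset.mem_filter.2 ⟨Finset.mem_univ _, ?_⟩
      ext r
      exact φ.commutes r
    · intro φ _; rfl
    · intro φ _; rfl
  · intro φ hφ
    rw [(Finset.mem_filter.1 hφ).2]


/-- Finite part of a height of an integral tuple under extension of the field. -/
theorem finprod_finitePlace_map {K L : Type*} [Field K] [NumberField K] [Field L] [NumberField L]
    [Algebra K L] {ι : Type*} [Finite ι] (x : ι → 𝓞 K) (hx : x ≠ 0) :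
    ∏ᶠ v : FinitePlace L, ⨆ i, v ((algebraMap (𝓞 K) (𝓞 L) (x i) : 𝓞 L) : L) =
      (∏ᶠ v : FinitePlace K, ⨆ i, v (x i)) ^ finrank K L := by
  have h1 := absNorm_mul_finprod_finitePlace_eq_one hx
  have hx' : (fun i => algebraMap (𝓞 K) (𝓞 L) (x i)) ≠ 0 := by
    intro h
    apply hx
    funext i
    have := congrFun h i
    simpa using this
  have h2 := absNorm_mul_finprod_finitePlace_eq_one hx'
  have h3 : Ideal.span (Set.range fun i => algebraMap (𝓞 K) (𝓞 L) (x i)) =
      (Ideal.span (Set.range x)).map (algebraMap (𝓞 K) (𝓞 L)) := by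
    rw [Ideal.map_span, ← Set.range_comp]
    rfl
  rw [h3, Ideal.absNorm_algebraMap, ← IsFractionRing.finrank_eq (𝓞 K) K (𝓞 L) L] at h2
  have h4 : ((Ideal.span (Set.range x)).absNorm : ℝ) ≠ 0 := by
    intro h
    rw [h, zero_mul] at h1
    exact zero_ne_one h1
  push_cast at h2
  have h5 : (((Ideal.span (Set.range x)).absNorm : ℝ) ^ finrank K L) ≠ 0 := pow_ne_zero _ h4
  apply mul_left_cancel₀ h5
  rw [h2, ← mul_pow, h1, one_pow]


theorem mulHeight_map_int {K L : Type*} [Field K] [NumberField K] [Field L] [NumberField L]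
    [Algebra K L] {ι : Type*} [Finite ι] (x : ι → 𝓞 K) (hx : x ≠ 0) :
    mulHeight (fun i => algebraMap K L (x i : K)) =
      mulHeight (fun i => (x i : K)) ^ finrank K L := by
  have hx1 : (fun i => (x i : K)) ≠ 0 := by
    intro h
    apply hx
    funext i
    have := congrFun h i
    simpa using this
  have hx2 : (fun i => algebraMap K L (x i : K)) ≠ 0 := by
    intro h
    apply hx1
    funext i
    have := congrFun h i
    simpa using this
  rw [NumberField.mulHeight_eq hx1, NumberField.mulHeight_eq hx2, mul_pow]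
  congr 1
  · rw [prod_infinitePlace_eq_prod_embeddings (fun v : InfinitePlace L =>
        ⨆ i, v (algebraMap K L (x i : K))),
      prod_infinitePlace_eq_prod_embeddings (fun v : InfinitePlace K => ⨆ i, v (x i : K)),
      ← prod_embeddings_comp (L := L)]
    refine Finset.prod_congr rfl fun φ _ => ?_
    rfl
  · rw [← finprod_finitePlace_map (L := L) x hx]
    rfl

/-- The height of an element of a number field in an extension. -/
theorem mulHeight₁_algebraMap {K L : Type*} [Field K] [NumberField K] [Field L] [NumberField L]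
    [Algebra K L] (x : K) :
    mulHeight₁ (algebraMap K L x) = mulHeight₁ x ^ finrank K L := by
  obtain ⟨a, b, hb, rfl⟩ := IsFractionRing.div_surjective (A := 𝓞 K) x
  have hb' : b ≠ 0 := nonZeroDivisors.ne_zero hb
  rw [map_div₀, mulHeight₁_div_eq_mulHeight, mulHeight₁_div_eq_mulHeight]
  have h := mulHeight_map_int (L := L) ![a, b] (by
    intro h
    apply hb'
    simpa using congrFun h 1)
  convert h using 2
  · funext i
    fin_cases i <;> simp
  · congr 1
    funext i
    fin_cases i <;> simp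

theorem logHeight₁_algebraMap {K L : Type*} [Field K] [NumberField K] [Field L] [NumberField L]
    [Algebra K L] (x : K) :
    logHeight₁ (algebraMap K L x) = finrank K L * logHeight₁ x := by
  rw [logHeight₁_eq_log_mulHeight₁, logHeight₁_eq_log_mulHeight₁, mulHeight₁_algebraMap,
    Real.log_pow]


open IntermediateField in
/-- The absolute height can be computed in any number field mapping to the ambient field. -/
theorem logHeight₁_eq_finrank_mul {K Ω : Type*} [Field K] [NumberField K] [Field Ω] [CharZero Ω]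
    (f : K →ₐ[ℚ] Ω) (x : K) :
    logHeight₁ x = finrank ℚ K * absLogHeight₁ (f x) := by
  have hx : IsIntegral ℚ (f x) := (Algebra.IsIntegral.isIntegral x).map f
  have hfd : FiniteDimensional ℚ ℚ⟮f x⟯ := adjoin.finiteDimensional hx
  have hnf : NumberField ℚ⟮f x⟯ := {}
  have hle : ℚ⟮f x⟯ ≤ f.fieldRange := by
    rw [adjoin_simple_le_iff]
    exact ⟨x, rfl⟩
  let j : ℚ⟮f x⟯ →ₐ[ℚ] K :=
    ((AlgEquiv.ofInjectiveField f).symm.toAlgHom).comp (inclusion hle)
  have hj : j (AdjoinSimple.gen ℚ (f x)) = x := by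
    apply f.injective
    have h1 : f ((AlgEquiv.ofInjectiveField f).symm (inclusion hle (AdjoinSimple.gen ℚ (f x)))) =
        ((AlgEquiv.ofInjectiveField f) ((AlgEquiv.ofInjectiveField f).symm
          (inclusion hle (AdjoinSimple.gen ℚ (f x)))) : Ω) := rfl
    have h2 : f (j (AdjoinSimple.gen ℚ (f x))) =
      f ((AlgEquiv.ofInjectiveField f).symm (inclusion hle (AdjoinSimple.gen ℚ (f x)))) := rfl
    change f (j (AdjoinSimple.gen ℚ (f x))) = f x
    rw [h2, h1, AlgEquiv.apply_symm_apply]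
    rfl
  let := j.toRingHom.toAlgebra
  have : IsScalarTower ℚ ℚ⟮f x⟯ K := IsScalarTower.of_algebraMap_eq fun r => (j.commutes r).symm
  have h3 := logHeight₁_algebraMap (L := K) (AdjoinSimple.gen ℚ (f x))
  have h4 : algebraMap ℚ⟮f x⟯ K (AdjoinSimple.gen ℚ (f x)) = x := hj
  rw [h4] at h3
  have h5 : absLogHeight₁ (f x) =
      ((finrank ℚ ℚ⟮f x⟯ : ℝ))⁻¹ * logHeight₁ (AdjoinSimple.gen ℚ (f x)) := by
    rw [absLogHeight₁, absMulHeight₁, dif_pos hx, Real.log_rpow (mulHeight₁_pos _)]
    rfl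
  have h6 : (finrank ℚ K : ℝ) = finrank ℚ ℚ⟮f x⟯ * finrank ℚ⟮f x⟯ K := by
    exact_mod_cast (finrank_mul_finrank ℚ ℚ⟮f x⟯ K).symm
  have h7 : (finrank ℚ ℚ⟮f x⟯ : ℝ) ≠ 0 := by exact_mod_cast (finrank_pos (R := ℚ)).ne'
  rw [h3, h5, h6]
  field_simp

open IntermediateField in
theorem absLogHeight₁_map {Ω Ω' : Type*} [Field Ω] [CharZero Ω] [Field Ω'] [CharZero Ω']
    (σ : Ω →ₐ[ℚ] Ω') {x : Ω} (hx : IsIntegral ℚ x) :
    absLogHeight₁ (σ x) = absLogHeight₁ x := by
  have hfd : FiniteDimensional ℚ ℚ⟮x⟯ := adjoin.finiteDimensional hx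
  have hnf : NumberField ℚ⟮x⟯ := {}
  have h1 := logHeight₁_eq_finrank_mul (ℚ⟮x⟯.val) (AdjoinSimple.gen ℚ x)
  have h2 := logHeight₁_eq_finrank_mul (σ.comp ℚ⟮x⟯.val) (AdjoinSimple.gen ℚ x)
  have h7 : (finrank ℚ ℚ⟮x⟯ : ℝ) ≠ 0 := by exact_mod_cast (finrank_pos (R := ℚ)).ne'
  have h3 := h2.symm.trans h1
  exact mul_left_cancel₀ h7 h3

theorem absLogHeight₁_nonneg {Ω : Type*} [Field Ω] [CharZero Ω] (x : Ω) :
    0 ≤ absLogHeight₁ x := by
  by_cases h : IsIntegral ℚ x
  · have hfd : FiniteDimensional ℚ (IntermediateField.adjoin ℚ {x}) :=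
      IntermediateField.adjoin.finiteDimensional h
    have hnf : NumberField (IntermediateField.adjoin ℚ {x}) := {}
    rw [absLogHeight₁, absMulHeight₁, dif_pos h]
    exact Real.log_nonneg (Real.one_le_rpow (one_le_mulHeight₁ _) (by positivity))
  · rw [absLogHeight₁, absMulHeight₁, dif_neg h, Real.log_one]

open IntermediateField in
theorem absLogHeight₁_pow {Ω : Type*} [Field Ω] [CharZero Ω] {x : Ω} (hx : IsIntegral ℚ x)
    (n : ℕ) : absLogHeight₁ (x ^ n) = n * absLogHeight₁ x := by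
  have hfd : FiniteDimensional ℚ ℚ⟮x⟯ := adjoin.finiteDimensional hx
  have hnf : NumberField ℚ⟮x⟯ := {}
  have h1 : logHeight₁ (AdjoinSimple.gen ℚ x) = finrank ℚ ℚ⟮x⟯ * absLogHeight₁ x :=
    logHeight₁_eq_finrank_mul (ℚ⟮x⟯.val) (AdjoinSimple.gen ℚ x)
  have h2 : logHeight₁ (AdjoinSimple.gen ℚ x ^ n) = finrank ℚ ℚ⟮x⟯ * absLogHeight₁ (x ^ n) :=
    logHeight₁_eq_finrank_mul (ℚ⟮x⟯.val) (AdjoinSimple.gen ℚ x ^ n)
  have h7 : (finrank ℚ ℚ⟮x⟯ : ℝ) ≠ 0 := by exact_mod_cast (finrank_pos (R := ℚ)).ne'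
  rw [logHeight₁_pow, h1] at h2
  have h3 : (finrank ℚ ℚ⟮x⟯ : ℝ) * (n * absLogHeight₁ x) =
      finrank ℚ ℚ⟮x⟯ * absLogHeight₁ (x ^ n) := by
    rw [← h2]
    ring
  exact (mul_left_cancel₀ h7 h3).symm

end Pool.Agent.helper64.Bog
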