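import Pool.Agent.helper64.Bog.ProdIneq
import Pool.Agent.helper64.Bog.Chord
import Pool.Agent.helper64.Bog.Alg

/-!
# The key step inside a Galois number field
-/

namespace Pool.Agent.helper64.Bog

open NumberField Height Module IntermediateField Polynomial

section

variable {M : Type*} [Field M] [NumberField M]

/-- The local estimate at a place above `3`. -/
theorem local_estimate {w : AbsoluteValue M ℝ} (hw : IsNonarchimedean w) (h3 : w 3 < 1)
    {L K₁ : IntermediateField ℚ M} {m : ℕ} (hA : finrank ℚ L < 3 ^ (m + 1)) {α ω : M}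
    (hα : w α ^ (3 ^ (m + 1)) = w 3 ∨ w α ^ (3 ^ (m + 1)) * w 3 = 1)
    (hω : ω ^ 2 + ω + 1 = 0)
    (hK₁ : ∀ x ∈ K₁, ∃ g₀ ∈ L, ∃ g₁ ∈ L, ∃ g₂ ∈ L, x = g₀ + g₁ * α + g₂ * α ^ 2)
    (τ : M ≃ₐ[ℚ] M) (hτL : ∀ y ∈ L, τ y = y) (hτα : τ α = ω * α)
    {β : M} {R : Finset M} (hβR : β ∈ R)
    (hR : ∀ i, (∏ y ∈ R, (X - C y)).coeff i ∈ K₁) :
    (∏ y ∈ R, chord w (τ β) y) ^ 2 ≤ w 3 := by
  classical
  have h30 : 0 ≤ w (3 : M) := apply_nonneg w _
  set x := τ β with hx
  set Q : M[X] := ∏ y ∈ R, (X - C y) with hQ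
  have hclose : ∀ z ∈ K₁, w (τ z - z) ^ 2 ≤ w 3 * w z ^ 2 := by
    intro z hz
    obtain ⟨g₀, h₀, g₁, h₁, g₂, h₂, rfl⟩ := hK₁ z hz
    have := closeness hw h3 hA hα hω h₀ h₁ h₂
    rw [map_add, map_add, map_mul, map_mul, map_pow, hτL _ h₀, hτL _ h₁, hτL _ h₂, hτα]
    exact this
  have hQβ : Q.eval β = 0 := by
    rw [hQ, eval_prod]
    exact Finset.prod_eq_zero hβR (by simp)
  have hQx : Q.eval x = ∏ y ∈ R, (x - y) := by
    rw [hQ, eval_prod]
    simp
  have hmap : (Q.map (τ : M →+* M)).eval x = 0 := by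
    rw [hx]
    have : (Q.map (τ : M →+* M)).eval ((τ : M →+* M) β) = (τ : M →+* M) (Q.eval β) := by
      rw [eval_map_apply]
    rw [hQβ, map_zero] at this
    exact this
  have hdeg : Q.natDegree = R.card := by
    rw [hQ, natDegree_prod_of_monic _ _ (fun i _ => monic_X_sub_C i)]
    simp
  have hsum : ∏ y ∈ R, (x - y) = ∑ i ∈ Finset.range (R.card + 1), (Q.coeff i - τ (Q.coeff i)) * x ^ i := by
    rw [← hQx, ← sub_zero (Q.eval x), ← hmap, eval_eq_sum_range' (n := R.card + 1) (by omega),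
      eval_eq_sum_range' (p := Q.map (τ : M →+* M)) (n := R.card + 1)
        (by rw [natDegree_map]; omega), ← Finset.sum_sub_distrib]
    refine Finset.sum_congr rfl fun i _ => ?_
    rw [coeff_map, sub_mul]
    rfl
  set B : ℝ := ∏ y ∈ R, max (w y) 1 with hB
  have hB0 : 0 < B := Finset.prod_pos fun y _ => lt_max_of_lt_right zero_lt_one
  have hX : 1 ≤ max (w x) 1 := le_max_right _ _
  have hcoeff : ∀ i, w (Q.coeff i) ≤ B := fun i => w_coeff_prod_le hw R i
  have hterm : ∀ i ∈ Finset.range (R.card + 1),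
      w ((Q.coeff i - τ (Q.coeff i)) * x ^ i) ≤ Real.sqrt (w 3) * B * max (w x) 1 ^ R.card := by
    intro i hi
    rw [map_mul, map_pow]
    have h1 : w (Q.coeff i - τ (Q.coeff i)) ≤ Real.sqrt (w 3) * B := by
      rw [w.map_sub]
      refine le_trans ?_ (mul_le_mul_of_nonneg_left (hcoeff i) (Real.sqrt_nonneg _))
      refine le_of_sq_le_sq ?_ (by positivity)
      rw [mul_pow, Real.sq_sqrt h30]
      exact hclose _ (hR i)
    have h2 : w x ^ i ≤ max (w x) 1 ^ R.card := by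
      refine (pow_le_pow_left₀ (apply_nonneg w _) (le_max_left _ (1 : ℝ)) _).trans ?_
      exact pow_le_pow_right₀ hX (by
        have := Finset.mem_range.1 hi
        omega)
    gcongr
  have htot : w (∏ y ∈ R, (x - y)) ≤ Real.sqrt (w 3) * B * max (w x) 1 ^ R.card := by
    rw [hsum]
    exact w_sum_le hw _ _ (by positivity) hterm
  have hprod : w (∏ y ∈ R, (x - y)) = (∏ y ∈ R, chord w x y) * (max (w x) 1 ^ R.card * B) := by
    rw [map_prod, hB, ← Finset.prod_const, ← Finset.prod_mul_distrib, ← Finset.prod_mul_distrib]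
    exact Finset.prod_congr rfl fun y _ => w_sub_eq x y
  rw [hprod] at htot
  have h5 : ∏ y ∈ R, chord w x y ≤ Real.sqrt (w 3) := by
    have h6 : 0 < max (w x) 1 ^ R.card * B := by positivity
    have h7 : (∏ y ∈ R, chord w x y) * (max (w x) 1 ^ R.card * B) ≤
        Real.sqrt (w 3) * (max (w x) 1 ^ R.card * B) := by
      refine htot.trans (le_of_eq ?_)
      ring
    exact le_of_mul_le_mul_right h7 h6
  calc (∏ y ∈ R, chord w x y) ^ 2 ≤ (Real.sqrt (w 3)) ^ 2 := by
        refine pow_le_pow_left₀ (Finset.prod_nonneg fun y _ => chord_nonneg _ _) h5 _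
    _ = w 3 := Real.sq_sqrt h30

theorem finitePlace_nonarch (w : FinitePlace M) : IsNonarchimedean w.1 := by
  intro a b
  exact FinitePlace.add_le w a b

theorem finitePlace_three_le (w : FinitePlace M) : w.1 (3 : M) ≤ 1 := by
  have h := IsNonarchimedean.apply_natCast_le_one (n := 3) (finitePlace_nonarch w)
  simpa using h

theorem log_three_gt : 1 < Real.log 3 := by
  rw [Real.lt_log_iff_exp_lt (by norm_num)]
  exact Real.exp_one_lt_three

/-- The global step: product formula. -/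
theorem exists_pow_eq {κ : ℕ} {R : Finset M} {x : M} (hR : R.Nonempty) (hRκ : R.card ≤ κ)
    (hloc : ∀ w : FinitePlace M, w.1 3 < 1 → (∏ y ∈ R, chord w.1 x y) ^ 2 ≤ w.1 3)
    {H : ℝ} (hx : logHeight₁ x = H) (hy : ∀ y ∈ R, logHeight₁ y = H)
    (hH : H < finrank ℚ M / (2 * κ * 3 ^ (3 * κ))) :
    ∃ y ∈ R, x ^ 3 ^ (3 * κ) = y ^ 3 ^ (3 * κ) := by
  classical
  by_contra hcon
  push Not at hcon
  have hκ : 0 < κ := lt_of_lt_of_le hR.card_pos hRκ
  have key := height_ineq (M := M) R (fun _ => x ^ 3 ^ (3 * κ)) (fun y => y ^ 3 ^ (3 * κ))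
    (κ + 1) hcon (by
      intro w
      have hw := finitePlace_nonarch w
      have hle := finitePlace_three_le w
      have h30 : 0 < w.1 (3 : M) := w.1.pos (by norm_num)
      have hsplit : ∏ y ∈ R, w.1 (x ^ 3 ^ (3 * κ) - y ^ 3 ^ (3 * κ)) =
          (∏ y ∈ R, chord w.1 (x ^ 3 ^ (3 * κ)) (y ^ 3 ^ (3 * κ))) *
            ∏ y ∈ R, (max (w.1 (x ^ 3 ^ (3 * κ))) 1 * max (w.1 (y ^ 3 ^ (3 * κ))) 1) := by
        rw [← Finset.prod_mul_distrib]
        exact Finset.prod_congr rfl fun y _ => w_sub_eq _ _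
      have hpos : 0 ≤ ∏ y ∈ R, (max (w.1 (x ^ 3 ^ (3 * κ))) 1 *
          max (w.1 (y ^ 3 ^ (3 * κ))) 1) := by
        refine Finset.prod_nonneg fun y _ => mul_nonneg ?_ ?_ <;>
          exact le_max_of_le_right zero_le_one
      have hchord : ∏ y ∈ R, chord w.1 (x ^ 3 ^ (3 * κ)) (y ^ 3 ^ (3 * κ)) ≤
          w.1 3 ^ (κ + 1) := by
        rcases hle.lt_or_eq with hlt | heq
        · obtain ⟨y₀, hy₀, hsmall⟩ := exists_chord_small hR h30 (hloc w hlt)
          have h1 : chord w.1 x y₀ ^ (2 * κ) ≤ w.1 3 :=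
            (pow_le_pow_of_le_one (chord_nonneg _ _) (chord_le_one hw _ _)
              (Nat.mul_le_mul_left 2 hRκ)).trans hsmall
          have h2 := chord_amplify hw hle x y₀ h1
          rw [← Finset.mul_prod_erase R _ hy₀]
          calc chord w.1 (x ^ 3 ^ (3 * κ)) (y₀ ^ 3 ^ (3 * κ)) *
                ∏ y ∈ R.erase y₀, chord w.1 (x ^ 3 ^ (3 * κ)) (y ^ 3 ^ (3 * κ))
              ≤ w.1 3 ^ (κ + 1) * 1 := by
                refine mul_le_mul h2 ?_ (Finset.prod_nonneg fun y _ => chord_nonneg _ _)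
                  (by positivity)
                exact Finset.prod_le_one (fun y _ => chord_nonneg _ _)
                  fun y _ => chord_le_one hw _ _
            _ = _ := mul_one _
        · rw [heq, one_pow]
          exact Finset.prod_le_one (fun y _ => chord_nonneg _ _) fun y _ => chord_le_one hw _ _
      have : ∏ y ∈ R, w.1 (x ^ 3 ^ (3 * κ) - y ^ 3 ^ (3 * κ)) ≤ w.1 3 ^ (κ + 1) *
            ∏ y ∈ R, (max (w.1 (x ^ 3 ^ (3 * κ))) 1 * max (w.1 (y ^ 3 ^ (3 * κ))) 1) := by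
        rw [hsplit]
        exact mul_le_mul_of_nonneg_right hchord hpos
      exact this)
  have hsum : ∑ y ∈ R, (logHeight₁ (x ^ 3 ^ (3 * κ)) + logHeight₁ (y ^ 3 ^ (3 * κ))) =
      R.card * (2 * (3 ^ (3 * κ) * H)) := by
    rw [Finset.sum_congr rfl (g := fun _ => 2 * (3 ^ (3 * κ) * H)), Finset.sum_const,
      nsmul_eq_mul]
    intro y hyR
    rw [logHeight₁_pow, logHeight₁_pow, hx, hy y hyR]
    push_cast
    ring
  rw [hsum] at key
  have hD : (0 : ℝ) < finrank ℚ M := by exact_mod_cast finrank_pos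
  have hH0 : 0 ≤ H := hx ▸ zero_le_logHeight₁ x
  have hκ' : (0 : ℝ) < κ := by exact_mod_cast hκ
  have hcard : (R.card : ℝ) ≤ κ := by exact_mod_cast hRκ
  have h3p : (0 : ℝ) < 3 ^ (3 * κ) := by positivity
  have hH2 : (κ : ℝ) * (2 * (3 ^ (3 * κ) * H)) < finrank ℚ M := by
    rw [lt_div_iff₀ (by positivity)] at hH
    linarith
  have hlog2 : Real.log 2 < Real.log 3 := Real.log_lt_log (by norm_num) (by norm_num)
  have hlog20 : 0 < Real.log 2 := Real.log_pos (by norm_num)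
  have hlog3 := log_three_gt
  have e1 : (R.card : ℝ) * (2 * (3 ^ (3 * κ) * H)) ≤ κ * (2 * (3 ^ (3 * κ) * H)) := by
    gcongr
  have e2 : (R.card : ℝ) * finrank ℚ M * Real.log 2 ≤ κ * finrank ℚ M * Real.log 3 := by
    gcongr
  push_cast at key
  have e3 : (finrank ℚ M : ℝ) < finrank ℚ M * Real.log 3 := by
    nlinarith
  nlinarith

end

end Pool.Agent.helper64.Bog
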