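import Pool.Agent.helper64.Bog.KeyM

/-!
# The key step inside a Galois number field: Galois theory
-/

namespace Pool.Agent.helper64.Bog

open NumberField Height Module IntermediateField Polynomial

section

variable {M : Type*} [Field M] [NumberField M] [IsGalois ℚ M]

theorem cube_root_cases {z ω : M} (hω : ω ^ 2 + ω + 1 = 0) (hz : z ^ 3 = 1) :
    z = 1 ∨ z = ω ∨ z = ω ^ 2 := by
  have h : (z - 1) * ((z - ω) * (z - ω ^ 2)) = 0 := by
    have h3 : ω ^ 3 = 1 := by linear_combination (ω - 1) * hω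
    linear_combination hz - (z - 1) * z * hω + (z - 1) * h3
  rcases mul_eq_zero.1 h with h | h
  · exact Or.inl (sub_eq_zero.1 h)
  rcases mul_eq_zero.1 h with h | h
  · exact Or.inr (Or.inl (sub_eq_zero.1 h))
  · exact Or.inr (Or.inr (sub_eq_zero.1 h))

/-- The two automorphisms `τ` and `σ`. -/
theorem exists_tau_sigma {A F : IntermediateField ℚ M} (hFA : F ≤ A) {α : M}
    (hμ : ∀ z : M, z ^ 3 = 1 → z ∈ A)
    (htF : α ^ 3 + (α ^ 3)⁻¹ ∈ F) (h1 : α ^ 3 ∉ A) (h3 : α ∉ A ⊔ ℚ⟮α ^ 3⟯) :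
    ∃ (ω : M) (τ σ : M ≃ₐ[ℚ] M), ω ^ 2 + ω + 1 = 0 ∧ τ α = ω * α ∧ σ α = α⁻¹ ∧
      (∀ y ∈ A ⊔ ℚ⟮α ^ 3⟯, τ y = y) ∧ (∀ y ∈ A, σ y = y) := by
  have hα0 : α ≠ 0 := by
    rintro rfl
    apply h1
    rw [zero_pow (by norm_num)]
    exact A.zero_mem
  obtain ⟨τ, hτfix, hτα⟩ := exists_moving (A ⊔ ℚ⟮α ^ 3⟯) h3
  have hAle : A ≤ A ⊔ ℚ⟮α ^ 3⟯ := le_sup_left
  have ht : α ^ 3 ∈ A ⊔ ℚ⟮α ^ 3⟯ := (le_sup_right : ℚ⟮α ^ 3⟯ ≤ _) (mem_adjoin_simple_self ℚ _)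
  set ω := τ α / α with hω
  have hτω : τ α = ω * α := by
    rw [hω]
    field_simp
  have hω3 : ω ^ 3 = 1 := by
    have : (τ α) ^ 3 = α ^ 3 := by rw [← map_pow, hτfix _ ht]
    rw [hω, div_pow, this]
    exact div_self (pow_ne_zero _ hα0)
  have hω1 : ω ≠ 1 := by
    intro h
    apply hτα
    rw [hτω, h, one_mul]
  have hωeq : ω ^ 2 + ω + 1 = 0 := by
    have h : (ω - 1) * (ω ^ 2 + ω + 1) = 0 := by linear_combination hω3
    rcases mul_eq_zero.1 h with h | h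
    · exact absurd (sub_eq_zero.1 h) hω1
    · exact h
  have hωA : ω ∈ A := hμ ω hω3
  have hτω' : τ ω = ω := hτfix _ (hAle hωA)
  obtain ⟨σ₀, hσ₀fix, hσ₀⟩ := exists_moving A h1
  have ht0 : α ^ 3 ≠ 0 := pow_ne_zero _ hα0
  have hσ₀t : σ₀ (α ^ 3) = (α ^ 3)⁻¹ := by
    have e1 : σ₀ (α ^ 3 + (α ^ 3)⁻¹) = α ^ 3 + (α ^ 3)⁻¹ := hσ₀fix _ (hFA htF)
    rw [map_add, map_inv₀] at e1
    have hs0 : σ₀ (α ^ 3) ≠ 0 := by simpa using ht0
    have e2 : (σ₀ (α ^ 3) - α ^ 3) * (σ₀ (α ^ 3) - (α ^ 3)⁻¹) = 0 := by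
      have : σ₀ (α ^ 3) * (σ₀ (α ^ 3) + (σ₀ (α ^ 3))⁻¹) = σ₀ (α ^ 3) * (α ^ 3 + (α ^ 3)⁻¹) := by
        rw [e1]
      rw [mul_add, mul_inv_cancel₀ hs0] at this
      have h4 : α ^ 3 * (α ^ 3)⁻¹ = 1 := mul_inv_cancel₀ ht0
      linear_combination this + h4
    rcases mul_eq_zero.1 e2 with h | h
    · exact absurd (sub_eq_zero.1 h) hσ₀
    · exact sub_eq_zero.1 h
  have hζ : (σ₀ α * α) ^ 3 = 1 := by
    rw [mul_pow, ← map_pow, hσ₀t]
    exact inv_mul_cancel₀ ht0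
  refine ⟨ω, τ, ?_⟩
  have hval : ∀ z : M, σ₀ α * α = z → σ₀ α = z * α⁻¹ := by
    intro z hz
    rw [← hz]
    field_simp
  have hω0 : ω ≠ 0 := by
    rintro h
    rw [h] at hω3
    norm_num at hω3
  rcases cube_root_cases hωeq hζ with h | h | h
  · refine ⟨σ₀, hωeq, hτω, ?_, hτfix, hσ₀fix⟩
    rw [hval _ h, one_mul]
  · refine ⟨σ₀.trans τ, hωeq, hτω, ?_, hτfix, fun y hy => ?_⟩
    · rw [AlgEquiv.trans_apply, hval _ h, map_mul, map_inv₀, hτω, hτω']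
      field_simp
    · rw [AlgEquiv.trans_apply, hσ₀fix y hy, hτfix y (hAle hy)]
  · refine ⟨(σ₀.trans τ).trans τ, hωeq, hτω, ?_, hτfix, fun y hy => ?_⟩
    · rw [AlgEquiv.trans_apply, AlgEquiv.trans_apply, hval _ h]
      simp only [map_mul, map_inv₀, map_pow, hτω, hτω']
      field_simp
    · rw [AlgEquiv.trans_apply, AlgEquiv.trans_apply, hσ₀fix y hy, hτfix y (hAle hy),
        hτfix y (hAle hy)]

theorem alg_eq_of_agree {N F : IntermediateField ℚ M} {u : M} {f g : M →ₐ[ℚ] M}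
    (hN : ∀ y ∈ N, f y = g y) (hF : ∀ y ∈ F, f y = g y) (hu : f u = g u) :
    ∀ x ∈ N ⊔ (F ⊔ ℚ⟮u⟯), f x = g x := by
  intro x hx
  have hle : N ⊔ (F ⊔ ℚ⟮u⟯) ≤ eqField f g := by
    refine sup_le (fun y hy => hN y hy) (sup_le (fun y hy => hF y hy) ?_)
    rw [adjoin_simple_le_iff]
    exact hu
  exact hle hx

/-- The orbit of `β` under the automorphisms fixing `K₁`. -/
noncomputable def orbit (K₁ : IntermediateField ℚ M) (β : M) : Finset M := by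
  classical
  exact (Finset.univ.filter fun g : M ≃ₐ[ℚ] M => ∀ y ∈ K₁, g y = y).image fun g => g β

theorem mem_orbit {K₁ : IntermediateField ℚ M} {β y : M} :
    y ∈ orbit K₁ β ↔ ∃ g : M ≃ₐ[ℚ] M, (∀ z ∈ K₁, g z = z) ∧ g β = y := by
  classical
  simp [orbit]

theorem self_mem_orbit (K₁ : IntermediateField ℚ M) (β : M) : β ∈ orbit K₁ β :=
  mem_orbit.2 ⟨AlgEquiv.refl, fun _ _ => rfl, rfl⟩

theorem orbit_coeff_mem (K₁ : IntermediateField ℚ M) (β : M) (i : ℕ) :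
    (∏ y ∈ orbit K₁ β, (X - C y)).coeff i ∈ K₁ := by
  classical
  by_contra hcon
  obtain ⟨g, hg, hne⟩ := exists_moving K₁ hcon
  apply hne
  have h1 : (∏ y ∈ orbit K₁ β, (X - C y)).map (g : M →+* M) = ∏ y ∈ orbit K₁ β, (X - C y) := by
    rw [Polynomial.map_prod]
    simp only [Polynomial.map_sub, map_X, map_C]
    refine Finset.prod_bij' (fun y _ => g y) (fun y _ => g.symm y) ?_ ?_ ?_ ?_ ?_
    · intro y hy
      obtain ⟨h, hh, rfl⟩ := mem_orbit.1 hy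
      exact mem_orbit.2 ⟨h.trans g, fun z hz => by
        rw [AlgEquiv.trans_apply, hh z hz, hg z hz], rfl⟩
    · intro y hy
      obtain ⟨h, hh, rfl⟩ := mem_orbit.1 hy
      refine mem_orbit.2 ⟨h.trans g.symm, fun z hz => ?_, rfl⟩
      rw [AlgEquiv.trans_apply, hh z hz]
      conv_lhs => rw [← hg z hz]
      exact g.symm_apply_apply z
    · intro y _
      exact g.symm_apply_apply y
    · intro y _
      exact g.apply_symm_apply y
    · intro y _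
      rfl
  have h2 := congrArg (fun p => Polynomial.coeff p i) h1
  simp only [coeff_map] at h2
  exact h2

theorem card_orbit_le {N F : IntermediateField ℚ M} {K₁ : IntermediateField ℚ M} {u β : M}
    (hFK : F ≤ K₁) (huK : u ∈ K₁) (hβ : β ∈ N ⊔ (F ⊔ ℚ⟮u⟯)) :
    (orbit K₁ β).card ≤ finrank ℚ N := by
  classical
  have hcard : Fintype.card (N →ₐ[ℚ] M) ≤ finrank ℚ N := by
    have := card_algHom_le_finrank ℚ N M
    rwa [Nat.card_eq_fintype_card] at this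
  refine le_trans ?_ hcard
  rw [← Finset.card_univ]
  have hch : ∀ y : M, y ∈ orbit K₁ β → ∃ g : M ≃ₐ[ℚ] M, (∀ z ∈ K₁, g z = z) ∧ g β = y :=
    fun y hy => mem_orbit.1 hy
  choose! G hG1 hG2 using hch
  refine Finset.card_le_card_of_injOn (fun y => (G y : M →ₐ[ℚ] M).comp N.val)
    (fun _ _ => Finset.mem_univ _) ?_
  intro y hy z hz hyz
  have hyz' : (G y : M →ₐ[ℚ] M).comp N.val = (G z : M →ₐ[ℚ] M).comp N.val := hyz
  have hy' := Finset.mem_coe.1 hy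
  have hz' := Finset.mem_coe.1 hz
  rw [← hG2 y hy', ← hG2 z hz']
  refine alg_eq_of_agree (f := (G y : M →ₐ[ℚ] M)) (g := (G z : M →ₐ[ℚ] M)) ?_ ?_ ?_ β hβ
  · intro a ha
    exact DFunLike.congr_fun hyz' ⟨a, ha⟩
  · intro a ha
    exact (hG1 y hy' a (hFK ha)).trans (hG1 z hz' a (hFK ha)).symm
  · exact (hG1 y hy' u huK).trans (hG1 z hz' u huK).symm

end

end Pool.Agent.helper64.Bog
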