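import Pool.Agent.helper64.Bog.KeyM2

/-!
# The key step inside a Galois number field: assembly
-/

namespace Pool.Agent.helper64.Bog

open NumberField Height Module IntermediateField Polynomial

section

variable {M : Type*} [Field M] [NumberField M]

theorem logHeight₁_algEquiv (τ : M ≃ₐ[ℚ] M) (x : M) : logHeight₁ (τ x) = logHeight₁ x := by
  have h1 := logHeight₁_eq_finrank_mul (τ : M →ₐ[ℚ] M) x
  have h2 := logHeight₁_eq_finrank_mul (AlgHom.id ℚ M) (τ x)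
  rw [h1, h2]
  rfl

theorem mem_of_fixed_cubic {B : IntermediateField ℚ M} {τ : M ≃ₐ[ℚ] M} (hτ : ∀ y ∈ B, τ y = y)
    {u : M} (h1 : τ u ≠ u) (h2 : τ (τ u) ≠ u) {β b₀ b₁ b₂ : M} (h₀ : b₀ ∈ B) (h₁ : b₁ ∈ B)
    (h₂ : b₂ ∈ B) (hβ : β = b₀ + b₁ * u + b₂ * u ^ 2) (hfix : τ β = β) : β ∈ B := by
  have e1 : τ β = b₀ + b₁ * τ u + b₂ * τ u ^ 2 := by
    rw [hβ, map_add, map_add, map_mul, map_mul, map_pow, hτ _ h₀, hτ _ h₁, hτ _ h₂]
  have e2 : τ (τ β) = b₀ + b₁ * τ (τ u) + b₂ * τ (τ u) ^ 2 := by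
    rw [e1, map_add, map_add, map_mul, map_mul, map_pow, hτ _ h₀, hτ _ h₁, hτ _ h₂]
  have h12 : τ (τ u) ≠ τ u := fun h => h1 (τ.injective h)
  have f1 : b₁ + b₂ * (τ u + u) = 0 := by
    have : (τ u - u) * (b₁ + b₂ * (τ u + u)) = 0 := by
      rw [hfix] at e1
      linear_combination (-1 : M) * e1 + hβ
    rcases mul_eq_zero.1 this with h | h
    · exact absurd (sub_eq_zero.1 h) h1
    · exact h
  have f2 : b₁ + b₂ * (τ (τ u) + u) = 0 := by
    have : (τ (τ u) - u) * (b₁ + b₂ * (τ (τ u) + u)) = 0 := by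
      rw [hfix, hfix] at e2
      linear_combination (-1 : M) * e2 + hβ
    rcases mul_eq_zero.1 this with h | h
    · exact absurd (sub_eq_zero.1 h) h2
    · exact h
  have f3 : b₂ = 0 := by
    have : b₂ * (τ (τ u) - τ u) = 0 := by linear_combination f2 - f1
    rcases mul_eq_zero.1 this with h | h
    · exact h
    · exact absurd (sub_eq_zero.1 h) h12
  have f4 : b₁ = 0 := by
    rw [f3, zero_mul, add_zero] at f1
    exact f1
  rw [hβ, f3, f4, zero_mul, zero_mul, add_zero, add_zero]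
  exact h₀

variable [IsGalois ℚ M]

theorem key_M {N N' F : IntermediateField ℚ M} [Normal ℚ N] (hNN' : N ≤ N') {κ : ℕ}
    (hκ : finrank ℚ N = κ) (hμ : ∀ z : M, z ^ 3 ^ (3 * κ) = 1 → z ∈ N') {m : ℕ}
    (hF : finrank ℚ F = 3 ^ m) {α : M}
    (hα : ∀ w : FinitePlace M, w.1 3 < 1 →
      w.1 α ^ 3 ^ (m + 1) = w.1 3 ∨ w.1 α ^ 3 ^ (m + 1) * w.1 3 = 1)
    (htF : α ^ 3 + (α ^ 3)⁻¹ ∈ F) (h1 : α ^ 3 ∉ N' ⊔ F) (h3 : α ∉ (N' ⊔ F) ⊔ ℚ⟮α ^ 3⟯)
    {β : M} (hβ : β ∈ N ⊔ (F ⊔ ℚ⟮α + α⁻¹⟯))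
    (hh : logHeight₁ β < finrank ℚ M / (2 * κ * 3 ^ (3 * κ))) : β ∈ N ⊔ F := by
  classical
  have hκ0 : 0 < κ := by
    rw [← hκ]
    exact finrank_pos
  have hN'A : N' ≤ N' ⊔ F := le_sup_left
  have hFA : F ≤ N' ⊔ F := le_sup_right
  have hNA : N ≤ N' ⊔ F := hNN'.trans hN'A
  have hα0 : α ≠ 0 := by
    rintro rfl
    apply h1
    rw [zero_pow (by norm_num)]
    exact (N' ⊔ F).zero_mem
  obtain ⟨ω, τ, σ, hω, hτα, hσα, hτfix, hσfix⟩ := exists_tau_sigma hFA (α := α)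
    (fun z hz => hN'A (hμ z (by
      obtain ⟨j, hj⟩ : ∃ j, 3 * κ = j + 1 := ⟨3 * κ - 1, by omega⟩
      rw [hj, pow_succ, mul_comm, pow_mul, hz, one_pow]))) htF h1 h3
  have hAt : N' ⊔ F ≤ (N' ⊔ F) ⊔ ℚ⟮α ^ 3⟯ := le_sup_left
  have hτA : ∀ y ∈ N' ⊔ F, τ y = y := fun y hy => hτfix y (hAt hy)
  have hω3 : ω ^ 3 = 1 := by linear_combination (ω - 1) * hω
  have hω0 : ω ≠ 0 := by
    rintro h
    rw [h] at hω3
    norm_num at hω3
  have hωN' : ω ∈ N' := hμ ω (by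
      obtain ⟨j, hj⟩ : ∃ j, 3 * κ = j + 1 := ⟨3 * κ - 1, by omega⟩
      rw [hj, pow_succ, mul_comm, pow_mul, hω3, one_pow])
  have hτω : τ ω = ω := hτA _ (hN'A hωN')
  have hσω : σ ω = ω := hσfix _ (hN'A hωN')
  -- the field `L`
  set L : IntermediateField ℚ M := F ⊔ ℚ⟮α ^ 3⟯ with hL
  have hFL : F ≤ L := le_sup_left
  have htL : α ^ 3 ∈ L := (le_sup_right : ℚ⟮α ^ 3⟯ ≤ L) (mem_adjoin_simple_self ℚ _)
  have hτL : ∀ y ∈ L, τ y = y := fun y hy => hτfix y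
    ((sup_le (hFA.trans hAt) le_sup_right : L ≤ (N' ⊔ F) ⊔ ℚ⟮α ^ 3⟯) hy)
  have hLdeg : finrank ℚ L < 3 ^ (m + 1) := by
    set c : F := ⟨_, htF⟩ with hc
    have hle := finrank_sup_adjoin_le F (t := α ^ 3) (p := X ^ 2 - C c * X + 1)
      (by monicity!) (by
        simp only [map_add, map_sub, map_mul, map_pow, aeval_X, aeval_C, map_one]
        have : algebraMap F M c = α ^ 3 + (α ^ 3)⁻¹ := rfl
        rw [this]
        field_simp
        ring)
    have hdeg : (X ^ 2 - C c * X + 1 : F[X]).natDegree = 2 := by compute_degree!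
    rw [hdeg, hF] at hle
    have : 3 ^ m * 2 < 3 ^ (m + 1) := by
      rw [pow_succ]
      have : 0 < 3 ^ m := pow_pos (by norm_num) m
      omega
    exact lt_of_le_of_lt hle this
  -- the field `K₁`
  set K₁ : IntermediateField ℚ M := L ⊔ ℚ⟮α⟯ with hK₁
  have hFK : F ≤ K₁ := hFL.trans le_sup_left
  have hαK : α ∈ K₁ := (le_sup_right : ℚ⟮α⟯ ≤ K₁) (mem_adjoin_simple_self ℚ _)
  have huK : α + α⁻¹ ∈ K₁ := K₁.add_mem hαK (K₁.inv_mem hαK)
  have hform : ∀ x ∈ K₁, ∃ g₀ ∈ L, ∃ g₁ ∈ L, ∃ g₂ ∈ L, x = g₀ + g₁ * α + g₂ * α ^ 2 := by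
    intro x hx
    exact exists_cubic_form L (u := α) (a := 0) (b := -α ^ 3) L.zero_mem (L.neg_mem htL)
      (by ring) hx
  set u := α + α⁻¹ with hu
  set R := orbit K₁ β with hR
  have hRcard : R.card ≤ κ := hκ ▸ card_orbit_le hFK huK hβ
  obtain ⟨y, hyR, hy⟩ := exists_pow_eq (κ := κ) (R := R) (x := τ β)
    ⟨β, self_mem_orbit K₁ β⟩ hRcard
    (fun w hw => local_estimate (finitePlace_nonarch w) hw hLdeg (hα w hw) hω hform τ hτL hτα
      (self_mem_orbit K₁ β) (orbit_coeff_mem K₁ β))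
    (logHeight₁_algEquiv τ β)
    (by
      intro y hy
      obtain ⟨g, -, rfl⟩ := mem_orbit.1 hy
      exact logHeight₁_algEquiv g β)
    hh
  obtain ⟨g, hg, rfl⟩ := mem_orbit.1 hyR
  set W : IntermediateField ℚ M := N ⊔ (F ⊔ ℚ⟮u⟯) with hW
  -- `σ` is trivial on `W`
  have hσu : σ u = u := by
    rw [hu, map_add, map_inv₀, hσα, inv_inv, add_comm]
  have hσW : ∀ x ∈ W, σ x = x := fun x hx =>
    alg_eq_of_agree (f := (σ : M →ₐ[ℚ] M)) (g := AlgHom.id ℚ M)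
      (fun y hy => hσfix y (hNA hy)) (fun y hy => hσfix y (hFA hy)) hσu x hx
  have hgβ : g β ∈ W := by
    have hle : W ≤ W.comap (g : M →ₐ[ℚ] M) := by
      refine sup_le (fun x hx => ?_) (sup_le (fun x hx => ?_) ?_)
      · change g x ∈ W
        refine (le_sup_left : N ≤ W) ?_
        have : N.map (g : M →ₐ[ℚ] M) = N := by
          exact IntermediateField.normal_iff_forall_map_eq'.1 ‹Normal ℚ N› g
        rw [← this]
        exact ⟨x, hx, rfl⟩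
      · change g x ∈ W
        rw [hg x (hFK hx)]
        exact ((le_sup_left : F ≤ F ⊔ ℚ⟮u⟯).trans le_sup_right : F ≤ W) hx
      · rw [adjoin_simple_le_iff]
        change g u ∈ W
        rw [hg u huK]
        exact ((le_sup_right : ℚ⟮u⟯ ≤ F ⊔ ℚ⟮u⟯).trans le_sup_right : ℚ⟮u⟯ ≤ W)
          (mem_adjoin_simple_self ℚ _)
    exact hle hβ
  have hσβ : σ β = β := hσW β hβ
  have hσgβ : σ (g β) = g β := hσW _ hgβ
  have hστβ : σ (τ β) = τ β := by
    by_cases h0 : g β = 0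
    · have hβ0 : β = 0 := by simpa using h0
      rw [hβ0]
      simp
    · set ζ := τ β / g β with hζ
      have hζ1 : ζ ^ 3 ^ (3 * κ) = 1 := by
        rw [hζ, div_pow, hy]
        exact div_self (pow_ne_zero _ h0)
      have hζN : ζ ∈ N' := hμ ζ hζ1
      have hσζ : σ ζ = ζ := hσfix _ (hN'A hζN)
      have hτβ : τ β = ζ * g β := by
        rw [hζ]
        field_simp
      rw [hτβ, map_mul, hσζ, hσgβ]
  have hτu : τ u = ω * α + ω⁻¹ * α⁻¹ := by
    rw [hu, map_add, map_inv₀, hτα, mul_inv]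
  have hcomm : ∀ x ∈ W, σ (τ x) = τ.symm (σ x) := fun x hx =>
    alg_eq_of_agree (f := ((σ : M →ₐ[ℚ] M)).comp (τ : M →ₐ[ℚ] M))
      (g := ((τ.symm : M →ₐ[ℚ] M)).comp (σ : M →ₐ[ℚ] M))
      (fun y hy => by
        change σ (τ y) = τ.symm (σ y)
        rw [hτA y (hNA hy), hσfix y (hNA hy)]
        exact (τ.symm_apply_eq.2 (hτA y (hNA hy)).symm).symm)
      (fun y hy => by
        change σ (τ y) = τ.symm (σ y)
        rw [hτA y (hFA hy), hσfix y (hFA hy)]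
        exact (τ.symm_apply_eq.2 (hτA y (hFA hy)).symm).symm)
      (by
        change σ (τ u) = τ.symm (σ u)
        rw [hσu]
        symm
        rw [τ.symm_apply_eq, hτu]
        simp only [map_add, map_mul, map_inv₀, hσω, hτω, hσα, hτα]
        rw [hu]
        field_simp
        ring) x hx
  have hττ : τ (τ β) = β := by
    have := hcomm β hβ
    rw [hστβ, hσβ] at this
    rw [this, τ.apply_symm_apply]
  have hτ3 : ∀ x ∈ W, τ (τ (τ x)) = x := fun x hx =>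
    alg_eq_of_agree (f := ((τ : M →ₐ[ℚ] M)).comp (((τ : M →ₐ[ℚ] M)).comp (τ : M →ₐ[ℚ] M)))
      (g := AlgHom.id ℚ M)
      (fun y hy => by
        change τ (τ (τ y)) = y
        rw [hτA y (hNA hy), hτA y (hNA hy), hτA y (hNA hy)])
      (fun y hy => by
        change τ (τ (τ y)) = y
        rw [hτA y (hFA hy), hτA y (hFA hy), hτA y (hFA hy)])
      (by
        change τ (τ (τ u)) = u
        rw [hτu]
        simp only [map_add, map_mul, map_inv₀, hτω, hτα]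
        rw [hu]
        have h5 : ω * (ω * (ω * α)) = α := by linear_combination α * hω3
        have h6 : ω⁻¹ * (ω * (ω * α))⁻¹ = α⁻¹ := by
          rw [← mul_inv, h5]
        rw [h5, h6]) x hx
  have hτβ : τ β = β := by
    have := hτ3 β hβ
    rw [hττ] at this
    exact this
  -- finally
  have hα6 : ∀ x : M, x ^ 3 = 1 → α ^ 2 ≠ x := by
    intro x hx hαx
    apply h1
    have : (α ^ 3 - 1) * (α ^ 3 + 1) = 0 := by
      have : (α ^ 2) ^ 3 = 1 := by rw [hαx, hx]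
      linear_combination this
    rcases mul_eq_zero.1 this with h | h
    · rw [sub_eq_zero.1 h]
      exact (N' ⊔ F).one_mem
    · rw [eq_neg_of_add_eq_zero_left h]
      exact (N' ⊔ F).neg_mem (N' ⊔ F).one_mem
  have hω1 : ω ≠ 1 := by
    rintro rfl
    norm_num at hω
  have hωi : ω * ω⁻¹ = 1 := mul_inv_cancel₀ hω0
  have hαi : α * α⁻¹ = 1 := mul_inv_cancel₀ hα0
  have hτu1 : τ u ≠ u := by
    intro h
    rw [hτu, hu] at h
    have h8 : (ω - 1) * (ω * α ^ 2 - 1) = 0 := by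
      linear_combination (ω * α) * h - (α * α⁻¹) * hωi - hαi + ω * hαi
    rcases mul_eq_zero.1 h8 with h | h
    · exact hω1 (sub_eq_zero.1 h)
    · exact hα6 (ω ^ 2) (by rw [← pow_mul, mul_comm, pow_mul, hω3, one_pow])
        (by linear_combination ω ^ 2 * h - α ^ 2 * hω3)
  have hτu2 : τ (τ u) ≠ u := by
    intro h
    rw [hτu, hu] at h
    simp only [map_add, map_mul, map_inv₀, hτω, hτα, mul_inv] at h
    have h8 : (ω ^ 2 - 1) * (ω ^ 2 * α ^ 2 - 1) = 0 := by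
      linear_combination (ω ^ 2 * α) * h - (α * α⁻¹) * (ω * ω⁻¹ + 1) * hωi - hαi + ω ^ 2 * hαi
    rcases mul_eq_zero.1 h8 with h | h
    · have h9 : (3 : M) = 0 := by linear_combination h - (ω - 2) * (hω - h)
      norm_num at h9
    · exact hα6 ω hω3 (by linear_combination ω * h - α ^ 2 * hω3)
  have hBW : β ∈ (N ⊔ F) ⊔ ℚ⟮u⟯ := by
    rw [sup_assoc]
    exact hβ
  have hthree : (3 : M) ∈ N ⊔ F := by
    have := (N ⊔ F).algebraMap_mem 3
    rwa [map_ofNat] at this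
  have hcF : α ^ 3 + (α ^ 3)⁻¹ ∈ N ⊔ F := (le_sup_right : F ≤ N ⊔ F) htF
  obtain ⟨b₀, hb₀, b₁, hb₁, b₂, hb₂, hform'⟩ := exists_cubic_form (N ⊔ F) (u := u) (a := -3)
    (b := -(α ^ 3 + (α ^ 3)⁻¹)) ((N ⊔ F).neg_mem hthree) ((N ⊔ F).neg_mem hcF)
    (by
      rw [hu]
      field_simp
      ring) hBW
  exact mem_of_fixed_cubic (B := N ⊔ F) (τ := τ)
    (fun y hy => hτA y ((sup_le hNA hFA : N ⊔ F ≤ N' ⊔ F) hy)) hτu1 hτu2 hb₀ hb₁ hb₂ hform' hτβ

end

end Pool.Agent.helper64.Bog
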