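import Pool.Agent.helper64.Bog.Heights

/-!
# The product formula inequality
-/

namespace Pool.Agent.helper64.Bog

open NumberField Height Module

theorem hasFiniteMulSupport_max {M : Type*} [Field M] [NumberField M] (x : M) :
    (fun w : FinitePlace M => max (w x) 1).HasFiniteMulSupport := by
  by_cases hx : x = 0
  · subst hx
    have : (fun w : FinitePlace M => max (w (0 : M)) 1) = fun _ => 1 := by
      funext w
      simp
    rw [this]
    fun_prop
  · exact (FinitePlace.hasFiniteMulSupport hx).max (by fun_prop)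

theorem prod_three {M : Type*} [Field M] [NumberField M] :
    (3 : ℝ) ^ finrank ℚ M * ∏ᶠ w : FinitePlace M, w (3 : M) = 1 := by
  have h := prod_abs_eq_one (K := M) (x := 3) (by norm_num)
  rw [← h]
  congr 1
  have h1 : ∀ w : InfinitePlace M, w (3 : M) = 3 := by
    intro w
    have := InfinitePlace.norm_embedding_eq w (3 : M)
    rw [← this, map_ofNat]
    simp
  rw [Finset.prod_congr rfl (fun w _ => by rw [h1 w]), Finset.prod_pow_eq_pow_sum,
    InfinitePlace.sum_mult_eq]

theorem height_ineq {M : Type*} [Field M] [NumberField M] {ι : Type*} (s : Finset ι)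
    (x y : ι → M) (e : ℕ) (hne : ∀ i ∈ s, x i ≠ y i)
    (hw : ∀ w : FinitePlace M, ∏ i ∈ s, w (x i - y i) ≤
      w 3 ^ e * ∏ i ∈ s, (max (w (x i)) 1 * max (w (y i)) 1)) :
    e * finrank ℚ M * Real.log 3 ≤ s.card * finrank ℚ M * Real.log 2 +
      ∑ i ∈ s, (logHeight₁ (x i) + logHeight₁ (y i)) := by
  classical
  set δ : M := ∏ i ∈ s, (x i - y i) with hδ
  have hδ0 : δ ≠ 0 := Finset.prod_ne_zero_iff.2 fun i hi => sub_ne_zero.2 (hne i hi)
  have hpf := prod_abs_eq_one hδ0
  -- finite part
  have hfin : ∏ᶠ w : FinitePlace M, w δ ≤ (∏ᶠ w : FinitePlace M, w (3 : M)) ^ e *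
      ∏ i ∈ s, ((∏ᶠ w : FinitePlace M, max (w (x i)) 1) *
        ∏ᶠ w : FinitePlace M, max (w (y i)) 1) := by
    have h3 : (fun w : FinitePlace M => w (3 : M)).HasFiniteMulSupport :=
      FinitePlace.hasFiniteMulSupport (by norm_num)
    have h3e : (fun w : FinitePlace M => w (3 : M) ^ e).HasFiniteMulSupport := h3.fun_comp
      (g := fun r : ℝ => r ^ e) (one_pow e)
    have hxy : ∀ i, (fun w : FinitePlace M =>
        max (w (x i)) 1 * max (w (y i)) 1).HasFiniteMulSupport := fun i =>
      (hasFiniteMulSupport_max (x i)).mul (hasFiniteMulSupport_max (y i))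
    have hprod : (fun w : FinitePlace M => ∏ i ∈ s,
        (max (w (x i)) 1 * max (w (y i)) 1)).HasFiniteMulSupport :=
      Function.HasFiniteMulSupport.prod hxy s
    calc ∏ᶠ w : FinitePlace M, w δ
        ≤ ∏ᶠ w : FinitePlace M, (w 3 ^ e * ∏ i ∈ s, (max (w (x i)) 1 * max (w (y i)) 1)) := by
          refine finprod_le_finprod (FinitePlace.hasFiniteMulSupport hδ0)
            (fun w => apply_nonneg w _) (h3e.mul hprod) ?_
          intro w
          simp only [hδ, map_prod]
          exact hw w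
      _ = _ := by
          rw [finprod_mul_distrib h3e hprod, finprod_pow h3 e]
          congr 1
          rw [finprod_prod_comm s (fun (w : FinitePlace M) i =>
            max (w (x i)) 1 * max (w (y i)) 1) (fun i _ => hxy i)]
          refine Finset.prod_congr rfl fun i _ => ?_
          rw [finprod_mul_distrib (hasFiniteMulSupport_max _) (hasFiniteMulSupport_max _)]
  -- infinite part
  have hinf : ∏ w : InfinitePlace M, w δ ^ w.mult ≤ ((2 : ℝ) ^ finrank ℚ M) ^ s.card *
      ∏ i ∈ s, ((∏ w : InfinitePlace M, max (w (x i)) 1 ^ w.mult) *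
        ∏ w : InfinitePlace M, max (w (y i)) 1 ^ w.mult) := by
    have hb : ∀ w : InfinitePlace M, w δ ≤ ∏ i ∈ s, (2 * (max (w (x i)) 1 * max (w (y i)) 1)) := by
      intro w
      rw [hδ, map_prod]
      refine Finset.prod_le_prod (fun i _ => apply_nonneg w _) fun i _ => ?_
      have h1 : w (x i - y i) ≤ w (x i) + w (y i) := by
        have h := w.1.add_le (x i) (-(y i))
        rw [w.1.map_neg, ← sub_eq_add_neg] at h
        exact h
      have h2 : (1 : ℝ) ≤ max (w (x i)) 1 := le_max_right _ _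
      have h3 : (1 : ℝ) ≤ max (w (y i)) 1 := le_max_right _ _
      have h4 : w (x i) ≤ max (w (x i)) 1 := le_max_left _ _
      have h5 : w (y i) ≤ max (w (y i)) 1 := le_max_left _ _
      nlinarith
    calc ∏ w : InfinitePlace M, w δ ^ w.mult
        ≤ ∏ w : InfinitePlace M, (∏ i ∈ s, (2 * (max (w (x i)) 1 * max (w (y i)) 1))) ^ w.mult := by
          refine Finset.prod_le_prod (fun w _ => by positivity) fun w _ => ?_
          exact pow_le_pow_left₀ (apply_nonneg w _) (hb w) _
      _ = _ := by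
          have h2 : ((2 : ℝ) ^ finrank ℚ M) ^ s.card = ∏ _i ∈ s, (2 : ℝ) ^ finrank ℚ M := by
            rw [Finset.prod_const]
          rw [h2, ← Finset.prod_mul_distrib]
          simp_rw [← Finset.prod_pow]
          rw [Finset.prod_comm]
          refine Finset.prod_congr rfl fun i _ => ?_
          simp_rw [mul_pow, Finset.prod_mul_distrib]
          rw [Finset.prod_pow_eq_pow_sum, InfinitePlace.sum_mult_eq]
  have hH : ∀ z : M, (∏ w : InfinitePlace M, max (w z) 1 ^ w.mult) *
      ∏ᶠ w : FinitePlace M, max (w z) 1 = mulHeight₁ z := fun z => (NumberField.mulHeight₁_eq z).symm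
  have hfin0 : 0 ≤ ∏ᶠ w : FinitePlace M, w δ := finprod_nonneg fun w => apply_nonneg w _
  have hA0 : (0 : ℝ) ≤ ((2 : ℝ) ^ finrank ℚ M) ^ s.card *
      ∏ i ∈ s, ((∏ w : InfinitePlace M, max (w (x i)) 1 ^ w.mult) *
        ∏ w : InfinitePlace M, max (w (y i)) 1 ^ w.mult) := by positivity
  have hmain : 1 ≤ ((2 : ℝ) ^ finrank ℚ M) ^ s.card * (∏ᶠ w : FinitePlace M, w (3 : M)) ^ e *
      ∏ i ∈ s, (mulHeight₁ (x i) * mulHeight₁ (y i)) := by
    rw [← hpf]
    refine (mul_le_mul hinf hfin hfin0 hA0).trans (le_of_eq ?_)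
    rw [mul_mul_mul_comm, ← Finset.prod_mul_distrib]
    congr 1
    refine Finset.prod_congr rfl fun i _ => ?_
    rw [mul_mul_mul_comm, hH, hH]
  have h3 := prod_three (M := M)
  have h3' : (∏ᶠ w : FinitePlace M, w (3 : M)) = ((3 : ℝ) ^ finrank ℚ M)⁻¹ :=
    eq_inv_of_mul_eq_one_right h3
  rw [h3'] at hmain
  have hpos : 0 < ∏ i ∈ s, (mulHeight₁ (x i) * mulHeight₁ (y i)) :=
    Finset.prod_pos fun i _ => mul_pos (mulHeight₁_pos _) (mulHeight₁_pos _)
  have h4 := Real.log_nonneg hmain
  rw [Real.log_mul (by positivity) hpos.ne', Real.log_mul (by positivity) (by positivity),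
    Real.log_prod (fun i _ => (mul_pos (mulHeight₁_pos _) (mulHeight₁_pos _)).ne'),
    Real.log_pow, Real.log_pow, Real.log_pow, Real.log_inv, Real.log_pow] at h4
  have h5 : ∀ i, Real.log (mulHeight₁ (x i) * mulHeight₁ (y i)) =
      logHeight₁ (x i) + logHeight₁ (y i) := by
    intro i
    rw [Real.log_mul (mulHeight₁_ne_zero _) (mulHeight₁_ne_zero _)]
    rfl
  simp_rw [h5] at h4
  nlinarith

end Pool.Agent.helper64.Bog
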